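import Mathlib

set_option autoImplicit false

namespace Pool.Agent.H893R5.MC

/-- elementwise sum of sets of naturals -/
def sadd (A B : Set ℕ) : Set ℕ := {n : ℕ | ∃ x ∈ A, ∃ y ∈ B, n = x + y}

/-- elementwise product of sets of naturals -/
def smul (A B : Set ℕ) : Set ℕ := {n : ℕ | ∃ x ∈ A, ∃ y ∈ B, n = x * y}

/-- circuit trees with a parameter leaf -/
inductive T : Type
  | lit (k : ℕ) : T
  | par : T
  | un (a b : T) : T
  | inter (a b : T) : T
  | compl (a : T) : T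
  | add (a b : T) : T
  | mul (a b : T) : T

/-- the set computed by a tree when the parameter leaf computes `{m}` -/
def T.ev (m : ℕ) : T → Set ℕ
  | .lit k => {k}
  | .par => {m}
  | .un a b => a.ev m ∪ b.ev m
  | .inter a b => a.ev m ∩ b.ev m
  | .compl a => (a.ev m)ᶜ
  | .add a b => sadd (a.ev m) (b.ev m)
  | .mul a b => smul (a.ev m) (b.ev m)

/-- definable without parameter -/
def Df (S : Set ℕ) : Prop := ∃ t : T, ∀ m, t.ev m = S

theorem Df.congr {A B : Set ℕ} (h : Df A) (e : A = B) : Df B := e ▸ h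

theorem df_lit (k : ℕ) : Df {k} := ⟨.lit k, fun _ => rfl⟩

theorem Df.un {A B : Set ℕ} (hA : Df A) (hB : Df B) : Df (A ∪ B) := by
  obtain ⟨a, ha⟩ := hA
  obtain ⟨b, hb⟩ := hB
  exact ⟨.un a b, fun m => by simp only [T.ev, ha, hb]⟩

theorem Df.inter {A B : Set ℕ} (hA : Df A) (hB : Df B) : Df (A ∩ B) := by
  obtain ⟨a, ha⟩ := hA
  obtain ⟨b, hb⟩ := hB
  exact ⟨.inter a b, fun m => by simp only [T.ev, ha, hb]⟩

theorem Df.compl {A : Set ℕ} (hA : Df A) : Df Aᶜ := by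
  obtain ⟨a, ha⟩ := hA
  exact ⟨.compl a, fun m => by simp only [T.ev, ha]⟩

theorem Df.add {A B : Set ℕ} (hA : Df A) (hB : Df B) : Df (sadd A B) := by
  obtain ⟨a, ha⟩ := hA
  obtain ⟨b, hb⟩ := hB
  exact ⟨.add a b, fun m => by simp only [T.ev, ha, hb]⟩

theorem Df.mul {A B : Set ℕ} (hA : Df A) (hB : Df B) : Df (smul A B) := by
  obtain ⟨a, ha⟩ := hA
  obtain ⟨b, hb⟩ := hB
  exact ⟨.mul a b, fun m => by simp only [T.ev, ha, hb]⟩

theorem Df.diff {A B : Set ℕ} (hA : Df A) (hB : Df B) : Df (A \ B) := by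
  rw [Set.sdiff_eq]
  exact hA.inter hB.compl

theorem df_univ : Df (Set.univ : Set ℕ) := by
  have h := (df_lit 0).un (df_lit 0).compl
  rwa [Set.union_compl_self] at h

theorem df_empty : Df (∅ : Set ℕ) := by
  have h := df_univ.compl
  rwa [Set.compl_univ] at h

theorem mem_sadd {A B : Set ℕ} {n : ℕ} : n ∈ sadd A B ↔ ∃ x ∈ A, ∃ y ∈ B, n = x + y := Iff.rfl

theorem mem_smul {A B : Set ℕ} {n : ℕ} : n ∈ smul A B ↔ ∃ x ∈ A, ∃ y ∈ B, n = x * y := Iff.rfl

/-- value of a list of (coefficient, position) pairs in base `B` -/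
def val (B : ℕ) (L : List (ℕ × ℕ)) : ℕ := (L.map fun x => x.1 * B ^ x.2).sum

/-- digit at position `j` -/
def dig (L : List (ℕ × ℕ)) (j : ℕ) : ℕ := (L.map fun x => if x.2 = j then x.1 else 0).sum

/-- total of the coefficients -/
def tot (L : List (ℕ × ℕ)) : ℕ := (L.map fun x => x.1).sum

/-- the basic numbers `(2 + B^p)(1 + B^w)` -/
def E (B p w : ℕ) : ℕ := 2 + B ^ p + 2 * B ^ w + B ^ (p + w)

/-- the target relation `w = (p+1)(p+3)`, `p` even, `2 ≤ p` -/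
def QR (p w : ℕ) : Prop := Even p ∧ 2 ≤ p ∧ w = (p + 1) * (p + 3)

/-- set coding a relation on pairs -/
def code (B : ℕ) (R : ℕ → ℕ → Prop) : Set ℕ := {n | ∃ p w, 1 ≤ p ∧ p < w ∧ R p w ∧ n = E B p w}

/-- `R` holds at some `s < w` with `w / s` odd -/
def down (R : ℕ → ℕ → Prop) (p w : ℕ) : Prop := ∃ s, p < s ∧ s < w ∧ s ∣ w ∧ Odd (w / s) ∧ R p s

/-- the quotients `1 + (B-1) B^k + B^(k+1) m`, `k ≥ 1` -/
def Q1 (B : ℕ) : Set ℕ := {n | ∃ k m, 1 ≤ k ∧ n = 1 + (B - 1) * B ^ k + B ^ (k + 1) * m}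

/-- constraints between natural variables `x 0, x 1, ...` -/
inductive Con : Type
  | add (i j l : ℕ) : Con
  | one (i : ℕ) : Con
  | quad (i j : ℕ) : Con

def Con.Holds (x : ℕ → ℕ) : Con → Prop
  | .add i j l => x i + x j = x l
  | .one i => x i = 1
  | .quad i j => QR (x i) (x j)

def Con.Below (k : ℕ) : Con → Prop
  | .add i j l => i < k ∧ j < k ∧ l < k
  | .one i => i < k
  | .quad i j => i < k ∧ j < k

/-- the number coding the tuple `x 0, ..., x (N-1)` -/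
def enc (N : ℕ) (x : ℕ → ℕ) : ℕ := ∑ i ∈ Finset.range N, 2 ^ (N * x i + i)

end Pool.Agent.H893R5.MC
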