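import Mathlib
import Pool.Agent.H893R5.MC.Defs

set_option autoImplicit false

namespace Pool.Agent.H893R5.MC

/-- number of nodes -/
def sz : T → ℕ
  | .lit _ => 1
  | .par => 1
  | .un a b => sz a + sz b + 1
  | .inter a b => sz a + sz b + 1
  | .compl a => sz a + 1
  | .add a b => sz a + sz b + 1
  | .mul a b => sz a + sz b + 1

theorem sz_pos (t : T) : 0 < sz t := by
  cases t <;> simp [sz]

/-- list of gates of a tree, starting at position `off` -/
def compile (m : ℕ) : T → ℕ → List (ℕ × ℕ × ℕ)
  | .lit k, _ => [(0, k, 0)]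
  | .par, _ => [(0, m, 0)]
  | .un a b, off => compile m a off ++ compile m b (off + sz a) ++
      [(1, off + sz a - 1, off + sz a + sz b - 1)]
  | .inter a b, off => compile m a off ++ compile m b (off + sz a) ++
      [(2, off + sz a - 1, off + sz a + sz b - 1)]
  | .compl a, off => compile m a off ++ [(3, off + sz a - 1, 0)]
  | .add a b, off => compile m a off ++ compile m b (off + sz a) ++
      [(4, off + sz a - 1, off + sz a + sz b - 1)]
  | .mul a b, off => compile m a off ++ compile m b (off + sz a) ++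
      [(5, off + sz a - 1, off + sz a + sz b - 1)]

theorem length_compile (m : ℕ) (t : T) : ∀ off, (compile m t off).length = sz t := by
  induction t with
  | lit k => intro off; rfl
  | par => intro off; rfl
  | un a b iha ihb => intro off; simp [compile, sz, iha, ihb]; omega
  | inter a b iha ihb => intro off; simp [compile, sz, iha, ihb]; omega
  | compl a iha => intro off; simp [compile, sz, iha]
  | add a b iha ihb => intro off; simp [compile, sz, iha, ihb]; omega
  | mul a b iha ihb => intro off; simp [compile, sz, iha, ihb]; omega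

/-- the condition at one gate -/
def Gate (f : ℕ → Set ℕ) (i : ℕ) (g : ℕ × ℕ × ℕ) : Prop :=
  (g.1 = 0 ∧ f i = {g.2.1}) ∨
  (g.1 = 1 ∧ g.2.1 < i ∧ g.2.2 < i ∧ f i = f g.2.1 ∪ f g.2.2) ∨
  (g.1 = 2 ∧ g.2.1 < i ∧ g.2.2 < i ∧ f i = f g.2.1 ∩ f g.2.2) ∨
  (g.1 = 3 ∧ g.2.1 < i ∧ f i = (f g.2.1)ᶜ) ∨
  (g.1 = 4 ∧ g.2.1 < i ∧ g.2.2 < i ∧ f i = sadd (f g.2.1) (f g.2.2)) ∨
  (g.1 = 5 ∧ g.2.1 < i ∧ g.2.2 < i ∧ f i = smul (f g.2.1) (f g.2.2))

theorem gate1 {f : ℕ → Set ℕ} {i a d : ℕ} (h : Gate f i (1, a, d)) : f i = f a ∪ f d := by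
  unfold Gate at h
  rcases h with h | h | h | h | h | h
  all_goals first
    | exact h.2.2.2
    | exact absurd h.1 (by norm_num)

theorem gate2 {f : ℕ → Set ℕ} {i a d : ℕ} (h : Gate f i (2, a, d)) : f i = f a ∩ f d := by
  unfold Gate at h
  rcases h with h | h | h | h | h | h
  all_goals first
    | exact h.2.2.2
    | exact absurd h.1 (by norm_num)

theorem gate3 {f : ℕ → Set ℕ} {i a d : ℕ} (h : Gate f i (3, a, d)) : f i = (f a)ᶜ := by
  unfold Gate at h
  rcases h with h | h | h | h | h | h
  all_goals first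
    | exact h.2.2
    | exact absurd h.1 (by norm_num)

theorem gate4 {f : ℕ → Set ℕ} {i a d : ℕ} (h : Gate f i (4, a, d)) : f i = sadd (f a) (f d) := by
  unfold Gate at h
  rcases h with h | h | h | h | h | h
  all_goals first
    | exact h.2.2.2
    | exact absurd h.1 (by norm_num)

theorem gate5 {f : ℕ → Set ℕ} {i a d : ℕ} (h : Gate f i (5, a, d)) : f i = smul (f a) (f d) := by
  unfold Gate at h
  rcases h with h | h | h | h | h | h
  all_goals first
    | exact h.2.2.2
    | exact absurd h.1 (by norm_num)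

theorem gate0 {f : ℕ → Set ℕ} {i a d : ℕ} (h : Gate f i (0, a, d)) : f i = {a} := by
  unfold Gate at h
  rcases h with h | h | h | h | h | h
  all_goals first
    | exact h.2
    | exact absurd h.1 (by norm_num)

/-- all gates of a list satisfied, first gate at position `off` -/
def Sat (f : ℕ → Set ℕ) (off : ℕ) (L : List (ℕ × ℕ × ℕ)) : Prop :=
  ∀ k g, L[k]? = some g → Gate f (off + k) g

theorem Gate.congr {f f' : ℕ → Set ℕ} {i : ℕ} {g : ℕ × ℕ × ℕ} (h : ∀ j ≤ i, f j = f' j)
    (hg : Gate f i g) : Gate f' i g := by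
  unfold Gate at hg ⊢
  rcases hg with ⟨h0, h1⟩ | ⟨h0, h1, h2, h3⟩ | ⟨h0, h1, h2, h3⟩ | ⟨h0, h1, h2⟩ |
    ⟨h0, h1, h2, h3⟩ | ⟨h0, h1, h2, h3⟩
  · refine Or.inl ⟨h0, ?_⟩
    rw [← h i le_rfl]; exact h1
  · refine Or.inr (Or.inl ⟨h0, h1, h2, ?_⟩)
    rw [← h i le_rfl, ← h _ h1.le, ← h _ h2.le]; exact h3
  · refine Or.inr (Or.inr (Or.inl ⟨h0, h1, h2, ?_⟩))
    rw [← h i le_rfl, ← h _ h1.le, ← h _ h2.le]; exact h3
  · refine Or.inr (Or.inr (Or.inr (Or.inl ⟨h0, h1, ?_⟩)))
    rw [← h i le_rfl, ← h _ h1.le]; exact h2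
  · refine Or.inr (Or.inr (Or.inr (Or.inr (Or.inl ⟨h0, h1, h2, ?_⟩))))
    rw [← h i le_rfl, ← h _ h1.le, ← h _ h2.le]; exact h3
  · refine Or.inr (Or.inr (Or.inr (Or.inr (Or.inr ⟨h0, h1, h2, ?_⟩))))
    rw [← h i le_rfl, ← h _ h1.le, ← h _ h2.le]; exact h3

theorem Sat.congr {f f' : ℕ → Set ℕ} {off : ℕ} {L : List (ℕ × ℕ × ℕ)}
    (h : ∀ j < off + L.length, f j = f' j) (hs : Sat f off L) : Sat f' off L := by
  intro k g hk
  have hk' : k < L.length := by
    by_contra hc
    rw [List.getElem?_eq_none (by omega)] at hk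
    exact absurd hk (by simp)
  exact (hs k g hk).congr (fun j hj => h j (by omega))

theorem sat_append {f : ℕ → Set ℕ} {off : ℕ} {L L' : List (ℕ × ℕ × ℕ)} :
    Sat f off (L ++ L') ↔ Sat f off L ∧ Sat f (off + L.length) L' := by
  constructor
  · intro h
    refine ⟨fun k g hk => ?_, fun k g hk => ?_⟩
    · have hk' : k < L.length := by
        by_contra hc
        rw [List.getElem?_eq_none (by omega)] at hk
        exact absurd hk (by simp)
      exact h k g (by rw [List.getElem?_append_left hk']; exact hk)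
    · have := h (L.length + k) g (by rw [List.getElem?_append_right (by omega)]; simpa using hk)
      rwa [← Nat.add_assoc] at this
  · rintro ⟨h1, h2⟩ k g hk
    by_cases hc : k < L.length
    · rw [List.getElem?_append_left hc] at hk
      exact h1 k g hk
    · rw [List.getElem?_append_right (by omega)] at hk
      have := h2 _ g hk
      have e : off + L.length + (k - L.length) = off + k := by omega
      rwa [e] at this

theorem sat_single {f : ℕ → Set ℕ} {off : ℕ} {g : ℕ × ℕ × ℕ} : Sat f off [g] ↔ Gate f off g := by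
  constructor
  · intro h; exact h 0 g rfl
  · intro h k g' hk
    cases k with
    | zero => simp at hk; subst hk; exact h
    | succ k => simp at hk

theorem sound (m : ℕ) (f : ℕ → Set ℕ) (t : T) :
    ∀ off, Sat f off (compile m t off) → f (off + sz t - 1) = t.ev m := by
  induction t with
  | lit k =>
    intro off h
    have := gate0 (sat_single.1 h)
    simpa [sz, T.ev] using this
  | par =>
    intro off h
    have := gate0 (sat_single.1 h)
    simpa [sz, T.ev] using this
  | un a b iha ihb =>
    intro off h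
    rw [compile, sat_append, sat_append, List.length_append, length_compile, length_compile,
      sat_single, ← Nat.add_assoc] at h
    obtain ⟨⟨h1, h2⟩, h3⟩ := h
    have e1 := iha _ h1
    have e2 := ihb _ h2
    have h4 : f (off + sz a + sz b) = f (off + sz a - 1) ∪ f (off + sz a + sz b - 1) := gate1 h3
    have e : off + sz (a.un b) - 1 = off + sz a + sz b := by simp only [sz]; omega
    rw [e, h4, e1, e2]; rfl
  | inter a b iha ihb =>
    intro off h
    rw [compile, sat_append, sat_append, List.length_append, length_compile, length_compile,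
      sat_single, ← Nat.add_assoc] at h
    obtain ⟨⟨h1, h2⟩, h3⟩ := h
    have e1 := iha _ h1
    have e2 := ihb _ h2
    have h4 : f (off + sz a + sz b) = f (off + sz a - 1) ∩ f (off + sz a + sz b - 1) := gate2 h3
    have e : off + sz (a.inter b) - 1 = off + sz a + sz b := by simp only [sz]; omega
    rw [e, h4, e1, e2]; rfl
  | compl a iha =>
    intro off h
    rw [compile, sat_append, length_compile, sat_single] at h
    obtain ⟨h1, h3⟩ := h
    have e1 := iha _ h1
    have h4 : f (off + sz a) = (f (off + sz a - 1))ᶜ := gate3 h3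
    have e : off + sz (a.compl) - 1 = off + sz a := by simp only [sz]; omega
    rw [e, h4, e1]; rfl
  | add a b iha ihb =>
    intro off h
    rw [compile, sat_append, sat_append, List.length_append, length_compile, length_compile,
      sat_single, ← Nat.add_assoc] at h
    obtain ⟨⟨h1, h2⟩, h3⟩ := h
    have e1 := iha _ h1
    have e2 := ihb _ h2
    have h4 : f (off + sz a + sz b) = sadd (f (off + sz a - 1)) (f (off + sz a + sz b - 1)) := gate4 h3
    have e : off + sz (a.add b) - 1 = off + sz a + sz b := by simp only [sz]; omega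
    rw [e, h4, e1, e2]; rfl
  | mul a b iha ihb =>
    intro off h
    rw [compile, sat_append, sat_append, List.length_append, length_compile, length_compile,
      sat_single, ← Nat.add_assoc] at h
    obtain ⟨⟨h1, h2⟩, h3⟩ := h
    have e1 := iha _ h1
    have e2 := ihb _ h2
    have h4 : f (off + sz a + sz b) = smul (f (off + sz a - 1)) (f (off + sz a + sz b - 1)) := gate5 h3
    have e : off + sz (a.mul b) - 1 = off + sz a + sz b := by simp only [sz]; omega
    rw [e, h4, e1, e2]; rfl

theorem complete_two (m : ℕ) (a b : T)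
    (iha : ∀ (off : ℕ) (f0 : ℕ → Set ℕ), ∃ f, (∀ j < off, f j = f0 j) ∧ Sat f off (compile m a off))
    (ihb : ∀ (off : ℕ) (f0 : ℕ → Set ℕ), ∃ f, (∀ j < off, f j = f0 j) ∧ Sat f off (compile m b off))
    (off : ℕ) (f0 : ℕ → Set ℕ) (op : Set ℕ → Set ℕ → Set ℕ) (g : ℕ × ℕ × ℕ)
    (hg : ∀ f : ℕ → Set ℕ, f (off + sz a + sz b) =
      op (f (off + sz a - 1)) (f (off + sz a + sz b - 1)) → Gate f (off + sz a + sz b) g) :
    ∃ f, (∀ j < off, f j = f0 j) ∧
      Sat f off (compile m a off ++ compile m b (off + sz a) ++ [g]) := by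
  obtain ⟨fa, ha1, ha2⟩ := iha off f0
  obtain ⟨fb, hb1, hb2⟩ := ihb (off + sz a) fa
  have hpa := sz_pos a
  have hpb := sz_pos b
  set v := op (fb (off + sz a - 1)) (fb (off + sz a + sz b - 1)) with hv
  refine ⟨Function.update fb (off + sz a + sz b) v, fun j hj => ?_, ?_⟩
  · rw [Function.update_of_ne (by omega), hb1 j (by omega), ha1 j hj]
  · rw [sat_append, sat_append, List.length_append, length_compile, length_compile, sat_single,
      ← Nat.add_assoc]
    refine ⟨⟨?_, ?_⟩, ?_⟩
    · refine ha2.congr (fun j hj => ?_)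
      rw [length_compile] at hj
      rw [Function.update_of_ne (by omega), hb1 j (by omega)]
    · refine hb2.congr (fun j hj => ?_)
      rw [length_compile] at hj
      rw [Function.update_of_ne (by omega)]
    · apply hg
      rw [Function.update_self, Function.update_of_ne (by omega), Function.update_of_ne (by omega)]

theorem complete (m : ℕ) (t : T) :
    ∀ (off : ℕ) (f0 : ℕ → Set ℕ), ∃ f, (∀ j < off, f j = f0 j) ∧ Sat f off (compile m t off) := by
  induction t with
  | lit k =>
    intro off f0
    refine ⟨Function.update f0 off {k}, fun j hj => Function.update_of_ne (by omega) _ _, ?_⟩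
    refine sat_single.2 (Or.inl ⟨rfl, Function.update_self _ _ _⟩)
  | par =>
    intro off f0
    refine ⟨Function.update f0 off {m}, fun j hj => Function.update_of_ne (by omega) _ _, ?_⟩
    refine sat_single.2 (Or.inl ⟨rfl, Function.update_self _ _ _⟩)
  | un a b iha ihb =>
    intro off f0
    have hpa := sz_pos a
    have hpb := sz_pos b
    refine complete_two m a b iha ihb off f0 (fun A B => A ∪ B) _ (fun f hf => ?_)
    exact Or.inr (Or.inl ⟨rfl, by simp only; omega, by simp only; omega, hf⟩)
  | inter a b iha ihb =>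
    intro off f0
    have hpa := sz_pos a
    have hpb := sz_pos b
    refine complete_two m a b iha ihb off f0 (fun A B => A ∩ B) _ (fun f hf => ?_)
    exact Or.inr (Or.inr (Or.inl ⟨rfl, by simp only; omega, by simp only; omega, hf⟩))
  | compl a iha =>
    intro off f0
    obtain ⟨fa, ha1, ha2⟩ := iha off f0
    have hpa := sz_pos a
    refine ⟨Function.update fa (off + sz a) (fa (off + sz a - 1))ᶜ, fun j hj => ?_, ?_⟩
    · rw [Function.update_of_ne (by omega), ha1 j hj]
    · rw [compile, sat_append, length_compile, sat_single]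
      refine ⟨ha2.congr (fun j hj => ?_), ?_⟩
      · rw [length_compile] at hj
        rw [Function.update_of_ne (by omega)]
      · refine Or.inr (Or.inr (Or.inr (Or.inl ⟨rfl, by simp only; omega, ?_⟩)))
        simp only
        rw [Function.update_self, Function.update_of_ne (by omega)]
  | add a b iha ihb =>
    intro off f0
    have hpa := sz_pos a
    have hpb := sz_pos b
    refine complete_two m a b iha ihb off f0 sadd _ (fun f hf => ?_)
    exact Or.inr (Or.inr (Or.inr (Or.inr (Or.inl ⟨rfl, by simp only; omega, by simp only; omega, hf⟩))))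
  | mul a b iha ihb =>
    intro off f0
    have hpa := sz_pos a
    have hpb := sz_pos b
    refine complete_two m a b iha ihb off f0 smul _ (fun f hf => ?_)
    exact Or.inr (Or.inr (Or.inr (Or.inr (Or.inr ⟨rfl, by simp only; omega, by simp only; omega, hf⟩))))

theorem primrec_compile (t : T) : ∀ off, Primrec (fun m : ℕ => compile m t off) := by
  induction t with
  | lit k => intro off; exact Primrec.const _
  | par =>
    intro off
    exact Primrec.list_cons.comp (Primrec.pair (Primrec.const 0)
      (Primrec.pair Primrec.id (Primrec.const 0))) (Primrec.const [])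
  | un a b iha ihb =>
    intro off
    exact Primrec.list_append.comp (Primrec.list_append.comp (iha off) (ihb _)) (Primrec.const _)
  | inter a b iha ihb =>
    intro off
    exact Primrec.list_append.comp (Primrec.list_append.comp (iha off) (ihb _)) (Primrec.const _)
  | compl a iha =>
    intro off
    exact Primrec.list_append.comp (iha off) (Primrec.const _)
  | add a b iha ihb =>
    intro off
    exact Primrec.list_append.comp (Primrec.list_append.comp (iha off) (ihb _)) (Primrec.const _)
  | mul a b iha ihb =>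
    intro off
    exact Primrec.list_append.comp (Primrec.list_append.comp (iha off) (ihb _)) (Primrec.const _)

theorem primrec_par (N : ℕ) : Primrec (fun n : ℕ => 2 ^ (N * n)) := by
  have hpow : Primrec₂ (fun a b : ℕ => a ^ b) := Primrec₂.unpaired'.1 Nat.Primrec.pow
  exact hpow.comp (Primrec.const 2) (Primrec.nat_mul.comp (Primrec.const N) Primrec.id)

theorem undecidable_of
    (h : ∀ S : ℕ → Prop, REPred S → ∃ (t : T) (N : ℕ), ∀ n, S n ↔ (t.ev (2 ^ (N * n))).Nonempty) :
    ¬ (ComputablePred (fun p : List (ℕ × ℕ × ℕ) × ℕ =>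
      p.1 ≠ [] ∧ ∃ f : ℕ → Set ℕ,
        (∀ i o a d : ℕ, p.1[i]? = some (o, a, d) →
          (o = 0 ∧ f i = {a}) ∨
          (o = 1 ∧ a < i ∧ d < i ∧ f i = f a ∪ f d) ∨
          (o = 2 ∧ a < i ∧ d < i ∧ f i = f a ∩ f d) ∨
          (o = 3 ∧ a < i ∧ f i = (f a)ᶜ) ∨
          (o = 4 ∧ a < i ∧ d < i ∧ f i = {n : ℕ | ∃ x ∈ f a, ∃ y ∈ f d, n = x + y}) ∨
          (o = 5 ∧ a < i ∧ d < i ∧ f i = {n : ℕ | ∃ x ∈ f a, ∃ y ∈ f d, n = x * y})) ∧
        p.2 ∈ f (p.1.length - 1))) := by
  intro hP
  set S : ℕ → Prop := fun n => (Nat.Partrec.Code.eval (Denumerable.ofNat Nat.Partrec.Code n) 0).Dom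
    with hS
  have hre : REPred S := by
    have h1 := ComputablePred.halting_problem_re 0
    have h2 : Computable (fun n : ℕ => Denumerable.ofNat Nat.Partrec.Code n) := Computable.ofNat _
    exact Partrec.comp h1 h2
  obtain ⟨t, N, ht⟩ := h S hre
  have hcomp : ComputablePred S := by
    set t' : T := .mul (.lit 0) t with ht'
    set φ : ℕ → List (ℕ × ℕ × ℕ) × ℕ := fun n => (compile (2 ^ (N * n)) t' 0, 0) with hφ
    have hφc : Computable φ :=
      (Primrec.pair ((primrec_compile t' 0).comp (primrec_par N)) (Primrec.const 0)).to_comp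
    refine ComputablePred.computable_of_manyOneReducible ⟨φ, hφc, fun n => ?_⟩ hP
    rw [ht n]
    have hlen : (compile (2 ^ (N * n)) t' 0).length = sz t' := length_compile _ _ _
    have hev : (0 ∈ t'.ev (2 ^ (N * n))) ↔ (t.ev (2 ^ (N * n))).Nonempty := by
      constructor
      · rintro ⟨x, -, y, hy, -⟩; exact ⟨y, hy⟩
      · rintro ⟨y, hy⟩; exact ⟨0, rfl, y, hy, by simp⟩
    rw [← hev]
    have key : ∀ f : ℕ → Set ℕ, (∀ i o a d : ℕ, (φ n).1[i]? = some (o, a, d) →
          (o = 0 ∧ f i = {a}) ∨
          (o = 1 ∧ a < i ∧ d < i ∧ f i = f a ∪ f d) ∨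
          (o = 2 ∧ a < i ∧ d < i ∧ f i = f a ∩ f d) ∨
          (o = 3 ∧ a < i ∧ f i = (f a)ᶜ) ∨
          (o = 4 ∧ a < i ∧ d < i ∧ f i = {n : ℕ | ∃ x ∈ f a, ∃ y ∈ f d, n = x + y}) ∨
          (o = 5 ∧ a < i ∧ d < i ∧ f i = {n : ℕ | ∃ x ∈ f a, ∃ y ∈ f d, n = x * y})) ↔
        Sat f 0 (compile (2 ^ (N * n)) t' 0) := by
      intro f
      constructor
      · intro hh k g hk
        obtain ⟨o, a, d⟩ := g
        rw [Nat.zero_add]
        exact hh k o a d hk
      · intro hh i o a d hi
        have := hh i (o, a, d) hi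
        rw [Nat.zero_add] at this
        exact this
    constructor
    · intro h0
      refine ⟨?_, ?_⟩
      · intro hc
        have : (compile (2 ^ (N * n)) t' 0).length = 0 := by
          rw [show compile (2 ^ (N * n)) t' 0 = [] from hc]; rfl
        have := sz_pos t'
        omega
      · obtain ⟨f, -, hf⟩ := complete (2 ^ (N * n)) t' 0 (fun _ => ∅)
        refine ⟨f, (key f).2 hf, ?_⟩
        have := sound _ f t' 0 hf
        rw [Nat.zero_add] at this
        show (0 : ℕ) ∈ f ((compile (2 ^ (N * n)) t' 0).length - 1)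
        rw [hlen, this]; exact h0
    · rintro ⟨-, f, hf, h0⟩
      have := sound _ f t' 0 ((key f).1 hf)
      rw [Nat.zero_add] at this
      rw [← this, ← hlen]
      exact h0
  refine ComputablePred.halting_problem 0 ?_
  refine ComputablePred.computable_of_manyOneReducible
    ⟨Encodable.encode, Computable.encode, fun c => ?_⟩ hcomp
  rw [hS]
  simp only [Denumerable.ofNat_encode]

end Pool.Agent.H893R5.MC
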