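import Mathlib
import Pool.Agent.H893R5.MC.Defs

set_option autoImplicit false

namespace Pool.Agent.H893R5.MC

private theorem cv_split (B : ℕ) (hB : 1 ≤ B) (j : ℕ) (L : List (ℕ × ℕ)) :
    ∃ lo hi : ℕ, val B L = lo + dig L j * B ^ j + B ^ (j + 1) * hi ∧ lo * B ≤ tot L * B ^ j := by
  induction L with
  | nil => exact ⟨0, 0, by simp [val, dig], by simp⟩
  | cons x L ih =>
    obtain ⟨lo, hi, h1, h2⟩ := ih
    obtain ⟨a, e⟩ := x
    have hv : val B ((a, e) :: L) = a * B ^ e + val B L := by simp [val]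
    have hd : dig ((a, e) :: L) j = (if e = j then a else 0) + dig L j := by simp [dig]
    have ht : tot ((a, e) :: L) = a + tot L := by simp [tot]
    rw [hv, hd, ht]
    rcases lt_trichotomy e j with h | h | h
    · refine ⟨lo + a * B ^ e, hi, ?_, ?_⟩
      · rw [if_neg (by omega), h1]; ring
      · have h3 : a * B ^ (e + 1) ≤ a * B ^ j :=
          Nat.mul_le_mul_left a (Nat.pow_le_pow_right hB h)
        have h4 : (lo + a * B ^ e) * B = lo * B + a * B ^ (e + 1) := by ring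
        have h5 : (a + tot L) * B ^ j = tot L * B ^ j + a * B ^ j := by ring
        rw [h4, h5]
        exact Nat.add_le_add h2 h3
    · refine ⟨lo, hi, ?_, ?_⟩
      · rw [if_pos h, h1, h]; ring
      · exact h2.trans (Nat.mul_le_mul_right _ (by omega))
    · refine ⟨lo, hi + a * B ^ (e - (j + 1)), ?_, ?_⟩
      · have h6 : B ^ e = B ^ (j + 1) * B ^ (e - (j + 1)) := by
          rw [← pow_add]; congr 1; omega
        rw [if_neg (by omega), h1, h6]; ring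
      · exact h2.trans (Nat.mul_le_mul_right _ (by omega))

private theorem cv_dig_le (L : List (ℕ × ℕ)) (j : ℕ) : dig L j ≤ tot L := by
  induction L with
  | nil => simp [dig, tot]
  | cons x L ih =>
    have hd : dig (x :: L) j = (if x.2 = j then x.1 else 0) + dig L j := by simp [dig]
    have ht : tot (x :: L) = x.1 + tot L := by simp [tot]
    rw [hd, ht]
    split_ifs <;> omega

private theorem cv_dig_val (B : ℕ) (L : List (ℕ × ℕ)) (h : tot L < B) (j : ℕ) :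
    val B L / B ^ j % B = dig L j := by
  have hB : 1 ≤ B := by omega
  obtain ⟨lo, hi, h1, h2⟩ := cv_split B hB j L
  have hpos : 0 < B ^ j := Nat.pow_pos hB
  have hlo : lo < B ^ j := by
    by_contra hc
    have h3 : B ^ j * B ≤ lo * B := Nat.mul_le_mul_right _ (not_lt.mp hc)
    have h4 : tot L * B ^ j < B * B ^ j := Nat.mul_lt_mul_of_pos_right h hpos
    have h5 : B ^ j * B = B * B ^ j := mul_comm _ _
    omega
  have h6 : val B L = lo + B ^ j * (dig L j + B * hi) := by rw [h1]; ring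
  rw [h6, Nat.add_mul_div_left _ _ hpos, Nat.div_eq_of_lt hlo, zero_add, Nat.add_mul_mod_self_left]
  exact Nat.mod_eq_of_lt (lt_of_le_of_lt (cv_dig_le L j) h)

private theorem cv_digits (B p w i j a b c : ℕ) (hB : 16 ≤ B) (hp : 1 ≤ p) (hpw : p < w)
    (ha : 1 ≤ a) (hab : a < b) (hbc : b < c)
    (e : 2 + B ^ p + 2 * B ^ w + B ^ (p + w) + 2 * B ^ i + 7 * B ^ j
      = 2 + B ^ a + 4 * B ^ b + 8 * B ^ c) :
    a = p ∧ b = w ∧ c = p + w := by
  have hL : val B [(2, 0), (1, p), (2, w), (1, p + w), (2, i), (7, j)]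
      = 2 + B ^ p + 2 * B ^ w + B ^ (p + w) + 2 * B ^ i + 7 * B ^ j := by
    simp [val]; ring
  have hR : val B [(2, 0), (1, a), (4, b), (8, c)] = 2 + B ^ a + 4 * B ^ b + 8 * B ^ c := by
    simp [val]; ring
  have key : ∀ t : ℕ, dig [(2, 0), (1, p), (2, w), (1, p + w), (2, i), (7, j)] t
      = dig [(2, 0), (1, a), (4, b), (8, c)] t := by
    intro t
    rw [← cv_dig_val B _ (by simp [tot]; omega) t, ← cv_dig_val B _ (by simp [tot]; omega) t,
      hL, hR, e]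
  simp only [dig, List.map_cons, List.map_nil, List.sum_cons, List.sum_nil] at key
  have hj := key j
  have hj' : j = c := by
    clear key hL hR e
    split_ifs at hj <;> omega
  have hw := key w
  have hw' : b = w ∧ i = w := by
    clear key hL hR e hj
    split_ifs at hw <;> omega
  have haa := key a
  have ha' : a = p := by
    clear key hL hR e hj hw
    split_ifs at haa <;> omega
  refine ⟨ha', hw'.1, ?_⟩
  clear key hL hR e hw haa
  split_ifs at hj <;> omega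

/-! ### task CONV -/
theorem df_conv (B : ℕ) (hB : 16 ≤ B) (hP : Df {n | ∃ k : ℕ, n = B ^ k}) (h : Df (code B QR)) :
    Df {n | ∃ p w, QR p w ∧ n = 2 + B ^ p + 4 * B ^ w + 8 * B ^ (p + w)} := by
  have hBP : Df (smul {B} {n | ∃ k : ℕ, n = B ^ k}) := (df_lit B).mul hP
  have hTO := (df_lit 2).add (hBP.mul ((df_lit 1).add (hBP.mul ((df_lit 4).add ((df_lit 8).mul hBP)))))
  have hLHS := (h.add ((df_lit 2).mul hP)).add ((df_lit 7).mul hP)
  refine (hLHS.inter hTO).congr ?_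
  have hBPmem : ∀ n, n ∈ smul {B} {n | ∃ k : ℕ, n = B ^ k} ↔ ∃ k : ℕ, n = B ^ (k + 1) := by
    intro n
    constructor
    · rintro ⟨x, hx, y, ⟨k, hk⟩, rfl⟩
      refine ⟨k, ?_⟩
      rw [show x = B from hx, hk]; ring
    · rintro ⟨k, hk⟩
      exact ⟨B, rfl, B ^ k, ⟨k, rfl⟩, by rw [hk]; ring⟩
  ext n
  constructor
  · rintro ⟨⟨x, ⟨x1, ⟨p, w, hp, hpw, hq, rfl⟩, y1, ⟨c1, hc1, z1, ⟨i, rfl⟩, rfl⟩, rfl⟩, y,
      ⟨c2, hc2, z2, ⟨j, rfl⟩, rfl⟩, rfl⟩, ⟨c3, hc3, u, ⟨u1, hu1, v, ⟨c4, hc4, v1,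
      ⟨u2, hu2, v2, ⟨c5, hc5, v3, ⟨c6, hc6, u3, hu3, rfl⟩, rfl⟩, rfl⟩, rfl⟩, rfl⟩, hn⟩⟩
    rw [hBPmem] at hu1 hu2 hu3
    obtain ⟨k1, rfl⟩ := hu1
    obtain ⟨k2, rfl⟩ := hu2
    obtain ⟨k3, rfl⟩ := hu3
    have e1 : c1 = 2 := hc1
    have e2 : c2 = 7 := hc2
    have e3 : c3 = 2 := hc3
    have e4 : c4 = 1 := hc4
    have e5 : c5 = 4 := hc5
    have e6 : c6 = 8 := hc6
    subst e1 e2 e3 e4 e5 e6
    have hn' : 2 + B ^ p + 2 * B ^ w + B ^ (p + w) + 2 * B ^ i + 7 * B ^ j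
        = 2 + B ^ (k1 + 1) + 4 * B ^ (k1 + 1 + (k2 + 1)) + 8 * B ^ (k1 + 1 + (k2 + 1) + (k3 + 1)) := by
      have : E B p w = 2 + B ^ p + 2 * B ^ w + B ^ (p + w) := rfl
      rw [this] at hn
      rw [hn]; ring
    obtain ⟨h1, h2, h3⟩ := cv_digits B p w i j (k1 + 1) (k1 + 1 + (k2 + 1))
      (k1 + 1 + (k2 + 1) + (k3 + 1)) hB hp hpw (by omega) (by omega) (by omega) hn'
    refine ⟨p, w, hq, ?_⟩
    have : E B p w = 2 + B ^ p + 2 * B ^ w + B ^ (p + w) := rfl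
    rw [this, hn', h1, ← h3, ← h2, h1]
  · rintro ⟨p, w, hq, rfl⟩
    obtain ⟨hev, hp2, hw⟩ := hq
    have hpw : p < w := by rw [hw]; nlinarith
    refine ⟨⟨E B p w + 2 * B ^ w, ⟨E B p w, ⟨p, w, by omega, hpw, ⟨hev, hp2, hw⟩, rfl⟩, 2 * B ^ w,
      ⟨2, rfl, B ^ w, ⟨w, rfl⟩, rfl⟩, rfl⟩, 7 * B ^ (p + w), ⟨7, rfl, B ^ (p + w), ⟨p + w, rfl⟩, rfl⟩, ?_⟩, ?_⟩
    · have : E B p w = 2 + B ^ p + 2 * B ^ w + B ^ (p + w) := rfl
      rw [this]; ring
    · refine ⟨2, rfl, B ^ p * (1 + B ^ (w - p) * (4 + 8 * B ^ p)), ⟨B ^ p, ?_,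
        1 + B ^ (w - p) * (4 + 8 * B ^ p), ⟨1, rfl, B ^ (w - p) * (4 + 8 * B ^ p),
        ⟨B ^ (w - p), ?_, 4 + 8 * B ^ p, ⟨4, rfl, 8 * B ^ p, ⟨8, rfl, B ^ p, ?_, rfl⟩, rfl⟩, rfl⟩,
        rfl⟩, rfl⟩, ?_⟩
      · rw [hBPmem]; exact ⟨p - 1, by congr 1; omega⟩
      · rw [hBPmem]; exact ⟨w - p - 1, by congr 1; omega⟩
      · rw [hBPmem]; exact ⟨p - 1, by congr 1; omega⟩
      · have h7 : B ^ w = B ^ p * B ^ (w - p) := by rw [← pow_add]; congr 1; omega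
        have h8 : B ^ (p + w) = B ^ p * (B ^ p * B ^ (w - p)) := by rw [pow_add, h7]
        rw [h8, h7]; ring

end Pool.Agent.H893R5.MC
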