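import Mathlib
import Pool.Agent.H893R5.MC.Defs

/-! task DIG: digits of sums of few powers -/

set_option autoImplicit false

namespace Pool.Agent.H893R5.MC

theorem dig_le_tot (L : List (ℕ × ℕ)) (j : ℕ) : dig L j ≤ tot L := by
  unfold dig tot
  induction L with
  | nil => simp
  | cons x L ih =>
    simp only [List.map_cons, List.sum_cons]
    split_ifs <;> omega

theorem dig_split (B : ℕ) (hB : 1 ≤ B) (j : ℕ) (L : List (ℕ × ℕ)) :
    ∃ r q : ℕ, val B L = r + B ^ j * dig L j + B ^ (j + 1) * q ∧ r * B ≤ tot L * B ^ j := by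
  induction L with
  | nil => exact ⟨0, 0, by simp [val, dig], by simp⟩
  | cons x L ih =>
    obtain ⟨c, a⟩ := x
    obtain ⟨r, q, h1, h2⟩ := ih
    have hv : val B ((c, a) :: L) = c * B ^ a + val B L := by simp [val]
    have ht : tot ((c, a) :: L) = c + tot L := by simp [tot]
    have hd : dig ((c, a) :: L) j = (if a = j then c else 0) + dig L j := by simp [dig]
    rw [hv, ht, hd, h1]
    rcases lt_trichotomy a j with haj | haj | haj
    · refine ⟨r + c * B ^ a, q, ?_, ?_⟩
      · rw [if_neg haj.ne]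
        ring
      · have h3 : B ^ (a + 1) ≤ B ^ j := Nat.pow_le_pow_right hB haj
        calc (r + c * B ^ a) * B = r * B + c * B ^ (a + 1) := by ring
          _ ≤ tot L * B ^ j + c * B ^ j := Nat.add_le_add h2 (Nat.mul_le_mul_left c h3)
          _ = (c + tot L) * B ^ j := by ring
    · subst haj
      refine ⟨r, q, ?_, ?_⟩
      · rw [if_pos rfl]
        ring
      · refine h2.trans ?_
        exact Nat.mul_le_mul_right _ (by omega)
    · refine ⟨r, q + c * B ^ (a - (j + 1)), ?_, ?_⟩
      · rw [if_neg haj.ne']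
        have h3 : B ^ a = B ^ (j + 1) * B ^ (a - (j + 1)) := by
          rw [← pow_add]
          congr 1
          omega
        rw [h3]
        ring
      · refine h2.trans ?_
        exact Nat.mul_le_mul_right _ (by omega)

theorem dig_val (B : ℕ) (L : List (ℕ × ℕ)) (h : tot L < B) (j : ℕ) :
    val B L / B ^ j % B = dig L j := by
  have hB : 1 ≤ B := by omega
  obtain ⟨r, q, h1, h2⟩ := dig_split B hB j L
  have hBj : 0 < B ^ j := Nat.pow_pos hB
  have hr : r < B ^ j := by
    have h3 : tot L * B ^ j < B * B ^ j := Nat.mul_lt_mul_of_pos_right h hBj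
    have h4 : r * B < B ^ j * B := by
      calc r * B ≤ tot L * B ^ j := h2
        _ < B * B ^ j := h3
        _ = B ^ j * B := by ring
    exact Nat.lt_of_mul_lt_mul_right h4
  have h5 : val B L = r + B ^ j * (dig L j + B * q) := by
    rw [h1]
    ring
  rw [h5, Nat.add_mul_div_left _ _ hBj, Nat.div_eq_of_lt hr, zero_add, Nat.add_mul_mod_self_left]
  exact Nat.mod_eq_of_lt (lt_of_le_of_lt (dig_le_tot L j) h)

theorem dig_eq (B : ℕ) (L L' : List (ℕ × ℕ)) (h : tot L < B) (h' : tot L' < B)
    (e : val B L = val B L') (j : ℕ) : dig L j = dig L' j := by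
  rw [← dig_val B L h j, ← dig_val B L' h' j, e]

theorem dig_eq_mod (B : ℕ) (L L' : List (ℕ × ℕ)) (h : tot L < B) (h' : tot L' < B) (k : ℕ)
    (e : val B L ≡ val B L' [MOD B ^ (k + 1)]) (j : ℕ) (hj : j ≤ k) : dig L j = dig L' j := by
  rw [← dig_val B L h j, ← dig_val B L' h' j]
  have h1 : B ^ (j + 1) ∣ B ^ (k + 1) := pow_dvd_pow B (by omega)
  have h2 : val B L ≡ val B L' [MOD B ^ (j + 1)] := e.of_dvd h1
  have h3 : ∀ n : ℕ, n / B ^ j % B = n % B ^ (j + 1) / B ^ j := by
    intro n
    rw [pow_succ, Nat.mod_mul_right_div_self]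
  rw [h3, h3, h2]

end Pool.Agent.H893R5.MC
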