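import Mathlib
import Pool.Agent.H893R5.MC.Defs

set_option autoImplicit false

namespace Pool.Agent.H893R5.MC

theorem down_aux_geo (B a c : ℕ) (hc : c + 1 = B * (a + 1)) (r : ℕ) :
    ∃ g' : ℕ, (c + 1) ^ (2 * (r + 1)) = 1 + c * (c + 2) * (1 + B * g') := by
  induction r with
  | zero => exact ⟨0, by ring⟩
  | succ r ih =>
    obtain ⟨g', hg⟩ := ih
    refine ⟨(1 + B * g') * ((a + 1) * (c + 1)), ?_⟩
    have e : (c + 1) ^ (2 * (r + 1 + 1)) = (c + 1) ^ (2 * (r + 1)) * ((c + 1) * (c + 1)) := by ring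
    rw [e, hg]
    have e2 : B * ((1 + B * g') * ((a + 1) * (c + 1))) = (1 + B * g') * ((c + 1) * (c + 1)) := by
      calc B * ((1 + B * g') * ((a + 1) * (c + 1))) = (1 + B * g') * ((B * (a + 1)) * (c + 1)) := by
            ring
        _ = (1 + B * g') * ((c + 1) * (c + 1)) := by rw [← hc]
    rw [e2]
    ring

theorem quot_mem (B s w : ℕ) (hB : 2 ≤ B) (hs : 1 ≤ s) (hsw : s < w) (h : s ∣ w) (ho : Odd (w / s)) :
    ∃ q ∈ Q1 B, B ^ w + 1 = (B ^ s + 1) * q := by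
  obtain ⟨r, hr⟩ := ho
  have hw : w = s * (2 * r + 1) := by
    rw [← hr]
    exact (Nat.mul_div_cancel' h).symm
  have hr1 : 1 ≤ r := by
    by_contra hlt
    have : r = 0 := by omega
    subst this
    omega
  obtain ⟨r', rfl⟩ : ∃ r', r = r' + 1 := ⟨r - 1, by omega⟩
  obtain ⟨b, rfl⟩ : ∃ b, B = b + 1 := ⟨B - 1, by omega⟩
  obtain ⟨s', rfl⟩ : ∃ s', s = s' + 1 := ⟨s - 1, by omega⟩
  obtain ⟨a, ha⟩ : ∃ a, (b + 1) ^ s' = a + 1 :=
    Nat.exists_eq_succ_of_ne_zero (pow_ne_zero _ (by omega))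
  obtain ⟨c, hc⟩ : ∃ c, (b + 1) ^ (s' + 1) = c + 1 :=
    Nat.exists_eq_succ_of_ne_zero (pow_ne_zero _ (by omega))
  have hca : c + 1 = (b + 1) * (a + 1) := by
    rw [← hc, ← ha, pow_succ, mul_comm]
  obtain ⟨g', hg⟩ := down_aux_geo (b + 1) a c hca r'
  have hcb : c = b + (b + 1) * a := by
    have : c + 1 = (b + (b + 1) * a) + 1 := by rw [hca]; ring
    omega
  refine ⟨1 + (c + 1) * (c * (1 + (b + 1) * g')), ?_, ?_⟩
  · refine ⟨s' + 1, a + b * g' + (b + 1) * a * g', by omega, ?_⟩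
    rw [Nat.add_sub_cancel, pow_succ _ (s' + 1), hc]
    nth_rw 2 [hcb]
    ring
  · have e : (b + 1) ^ w = (c + 1) * (c + 1) ^ (2 * (r' + 1)) := by
      rw [hw, pow_mul, hc]
      ring
    rw [e, hg, hc]
    ring

/-- `down_eq` with the main lemma as hypothesis (plug in `main_lemma` of task ML) -/
theorem down_eq_of (hml : ∀ B p w p' s k m : ℕ, 16 ≤ B → 1 ≤ p → p < w → 1 ≤ p' → p' < s → 1 ≤ k →
      E B p w = E B p' s * (1 + (B - 1) * B ^ k + B ^ (k + 1) * m) →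
      p' = p ∧ s < w ∧ s ∣ w ∧ Odd (w / s))
    (B : ℕ) (hB : 16 ≤ B) (R : ℕ → ℕ → Prop) :
    smul (code B R) (Q1 B) ∩ code B (fun _ _ => True) = code B (down R) := by
  ext n
  constructor
  · rintro ⟨⟨x, ⟨p', s, hp', hps, hR, rfl⟩, y, ⟨k, m, hk, rfl⟩, hn⟩, ⟨p, w, hp, hpw, _, hn2⟩⟩
    obtain ⟨h1, h2, h3, h4⟩ :=
      hml B p w p' s k m hB hp hpw hp' hps hk (hn2.symm.trans hn)
    subst h1
    exact ⟨p', w, hp, hpw, ⟨s, hps, h2, h3, h4, hR⟩, hn2⟩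
  · rintro ⟨p, w, hp, hpw, ⟨s, hps, hsw, hd, ho, hR⟩, hn⟩
    refine ⟨?_, p, w, hp, hpw, trivial, hn⟩
    obtain ⟨q, hq, hqe⟩ := quot_mem B s w (by omega) (by omega) hsw hd ho
    refine ⟨E B p s, ⟨p, s, hp, hps, hR, rfl⟩, q, hq, ?_⟩
    rw [hn]
    have e1 : E B p w = (2 + B ^ p) * (B ^ w + 1) := by
      unfold E
      rw [pow_add]
      ring
    have e2 : E B p s = (2 + B ^ p) * (B ^ s + 1) := by
      unfold E
      rw [pow_add]
      ring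
    rw [e1, e2, hqe]
    ring

end Pool.Agent.H893R5.MC
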