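import Mathlib
import Pool.Agent.H893R5.MC.Defs
import Pool.Agent.H893R5.MC.Dig

set_option autoImplicit false

namespace Pool.Agent.H893R5.MC

theorem eall_E_val (B p w : ℕ) : E B p w = val B [(2, 0), (1, p), (2, w), (1, p + w)] := by
  simp only [E, val, List.map_cons, List.map_nil, List.sum_cons, List.sum_nil]
  ring

theorem E_inj (B p w p' w' : ℕ) (hB : 16 ≤ B) (hp : 1 ≤ p) (hpw : p < w) (hp' : 1 ≤ p')
    (hpw' : p' < w') (e : E B p w = E B p' w') : p = p' ∧ w = w' := by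
  rw [eall_E_val, eall_E_val] at e
  have hd := dig_eq B [(2, 0), (1, p), (2, w), (1, p + w)] [(2, 0), (1, p'), (2, w'), (1, p' + w')]
    (by simp only [tot, List.map_cons, List.map_nil, List.sum_cons, List.sum_nil]; omega)
    (by simp only [tot, List.map_cons, List.map_nil, List.sum_cons, List.sum_nil]; omega) e
  have h1 := hd p
  have h2 := hd w
  simp only [dig, List.map_cons, List.map_nil, List.sum_cons, List.sum_nil] at h1 h2
  rw [if_neg (show ¬ (0 = p) by omega), if_pos True.intro, if_neg (show ¬ (w = p) by omega),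
    if_neg (show ¬ (p + w = p) by omega)] at h1
  rw [if_neg (show ¬ (0 = w) by omega), if_neg (show ¬ (p = w) by omega), if_pos True.intro,
    if_neg (show ¬ (p + w = w) by omega)] at h2
  have hw : w' = w := by
    by_contra hne
    rw [if_neg hne] at h2
    split_ifs at h2 <;> omega
  subst hw
  refine ⟨?_, rfl⟩
  by_contra hne
  rw [if_neg (fun h => hne h.symm),
    if_neg (show ¬ (w' = p) by omega), if_neg (show ¬ (p' + w' = p) by omega)] at h1
  omega

theorem eall_pow_uniq (B k l c d m x : ℕ) (hB : 2 ≤ B) (hc : 0 < c) (hcB : c < B) (hd : 0 < d)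
    (hdB : d < B) (e : B ^ k * (c + B * m) = B ^ l * (d + B * x)) : k = l ∧ c = d := by
  have hpos : ∀ n, 0 < B ^ n := fun n => pow_pos (by omega) n
  have key : ∀ (k l c d m x : ℕ), 0 < c → c < B → k < l →
      B ^ k * (c + B * m) = B ^ l * (d + B * x) → False := by
    intro k l c d m x hc hcB hkl e
    obtain ⟨i, rfl⟩ := Nat.exists_eq_add_of_lt hkl
    have h1 : B ^ k * (c + B * m) = B ^ k * (B * (B ^ i * (d + B * x))) := by
      rw [e]; ring
    have h2 := Nat.eq_of_mul_eq_mul_left (hpos k) h1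
    have h3 : (c + B * m) % B = 0 := by rw [h2]; exact Nat.mul_mod_right _ _
    rw [Nat.add_mul_mod_self_left, Nat.mod_eq_of_lt hcB] at h3
    omega
  have hkl : k = l := by
    rcases lt_trichotomy k l with h | h | h
    · exact (key k l c d m x hc hcB h e).elim
    · exact h
    · exact (key l k d c x m hd hdB h e.symm).elim
  refine ⟨hkl, ?_⟩
  subst hkl
  have h2 := Nat.eq_of_mul_eq_mul_left (hpos k) e
  have h3 : (c + B * m) % B = (d + B * x) % B := by rw [h2]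
  rwa [Nat.add_mul_mod_self_left, Nat.add_mul_mod_self_left, Nat.mod_eq_of_lt hcB,
    Nat.mod_eq_of_lt hdB] at h3

/-- the positive powers of `B` -/
def BP (B : ℕ) : Set ℕ := {n | ∃ k : ℕ, 1 ≤ k ∧ n = B ^ k}

theorem df_BP (B : ℕ) (hP : Df {n | ∃ k : ℕ, n = B ^ k}) : Df (BP B) := by
  apply ((df_lit B).mul hP).congr
  ext n
  rw [mem_smul]
  constructor
  · rintro ⟨x, hx, y, ⟨k, rfl⟩, rfl⟩
    rw [Set.mem_singleton_iff] at hx
    subst hx
    exact ⟨k + 1, by omega, by ring⟩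
  · rintro ⟨k, hk, rfl⟩
    obtain ⟨i, rfl⟩ := Nat.exists_eq_add_of_le' hk
    exact ⟨B, rfl, B ^ i, ⟨i, rfl⟩, by ring⟩

theorem df_code_true (B : ℕ) (hB : 16 ≤ B) (hP : Df {n | ∃ k : ℕ, n = B ^ k}) :
    Df (code B (fun _ _ => True)) := by
  have h1 : Df (sadd {2} (BP B)) := (df_lit 2).add (df_BP B hP)
  have h2 : Df (sadd {1} (BP B)) := (df_lit 1).add (df_BP B hP)
  have h3 : Df (sadd {2} (smul (BP B) (sadd {1} (smul {B} Set.univ)))) :=
    (df_lit 2).add ((df_BP B hP).mul ((df_lit 1).add ((df_lit B).mul df_univ)))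
  apply ((h1.mul h2).inter h3).congr
  ext n
  constructor
  · rintro ⟨⟨x, ⟨x1, hx1, x2, ⟨p, hp, rfl⟩, rfl⟩, y, ⟨y1, hy1, y2, ⟨w, hw, rfl⟩, rfl⟩, hn⟩,
      ⟨z1, hz1, z2, ⟨u, ⟨k, hk, rfl⟩, v, ⟨v1, hv1, v2, ⟨b, hb, m, _, rfl⟩, rfl⟩, rfl⟩, hn'⟩⟩
    rw [Set.mem_singleton_iff] at hx1 hy1 hz1 hv1 hb
    subst hx1 hy1 hz1 hv1 hb
    have e1 : b ^ p + 2 * b ^ w + b ^ (p + w) = b ^ k * (1 + b * m) := by
      have e2 : (2 + b ^ p) * (1 + b ^ w) = 2 + b ^ k * (1 + b * m) := by rw [← hn, hn']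
      have e3 : (2 + b ^ p) * (1 + b ^ w) = 2 + (b ^ p + 2 * b ^ w + b ^ (p + w)) := by
        rw [pow_add]; ring
      rw [e3] at e2
      omega
    have hpw : p < w := by
      by_contra hge
      rcases (not_lt.mp hge).lt_or_eq with h | h
      · -- w < p
        obtain ⟨i, rfl⟩ := Nat.exists_eq_add_of_lt h
        have e4 : b ^ w * (2 + b * (b ^ i + b ^ (w + i))) = b ^ k * (1 + b * m) := by
          rw [← e1]; ring
        have := (eall_pow_uniq b w k 2 1 _ m (by omega) (by omega) (by omega) (by omega)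
          (by omega) e4).2
        omega
      · subst h
        obtain ⟨i, rfl⟩ := Nat.exists_eq_add_of_le' hw
        have e4 : b ^ (i + 1) * (3 + b * (b ^ i)) = b ^ k * (1 + b * m) := by
          rw [← e1]; ring
        have := (eall_pow_uniq b (i + 1) k 3 1 _ m (by omega) (by omega) (by omega) (by omega)
          (by omega) e4).2
        omega
    refine ⟨p, w, hp, hpw, trivial, ?_⟩
    rw [hn]
    unfold E
    rw [pow_add]
    ring
  · rintro ⟨p, w, hp, hpw, _, rfl⟩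
    refine ⟨⟨2 + B ^ p, ⟨2, rfl, B ^ p, ⟨p, hp, rfl⟩, rfl⟩, 1 + B ^ w,
      ⟨1, rfl, B ^ w, ⟨w, by omega, rfl⟩, rfl⟩, ?_⟩, ?_⟩
    · unfold E
      rw [pow_add]
      ring
    · obtain ⟨i, rfl⟩ := Nat.exists_eq_add_of_lt hpw
      refine ⟨2, rfl, B ^ p * (1 + B * (2 * B ^ i + B ^ (p + i))), ⟨B ^ p, ⟨p, hp, rfl⟩,
        1 + B * (2 * B ^ i + B ^ (p + i)), ⟨1, rfl, B * (2 * B ^ i + B ^ (p + i)),
          ⟨B, rfl, _, Set.mem_univ _, rfl⟩, rfl⟩, rfl⟩, ?_⟩
      unfold E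
      ring

theorem df_code_shift (B d : ℕ) (hB : 16 ≤ B) (hd : 1 ≤ d) (hP : Df {n | ∃ k : ℕ, n = B ^ k}) :
    Df (code B (fun p w => w = p + d)) := by
  have h1 : Df (sadd {2} (sadd (smul {1 + 2 * B ^ d} {n | ∃ k : ℕ, n = B ^ k})
      {n | ∃ k : ℕ, n = B ^ k})) := (df_lit 2).add (((df_lit _).mul hP).add hP)
  apply ((df_code_true B hB hP).inter h1).congr
  ext n
  constructor
  · rintro ⟨⟨p, w, hp, hpw, _, rfl⟩, ⟨z1, hz1, z2, ⟨u, ⟨u1, hu1, u2, ⟨j, rfl⟩, rfl⟩, v', ⟨v, rfl⟩,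
      rfl⟩, hn⟩⟩
    rw [Set.mem_singleton_iff] at hz1 hu1
    subst hz1 hu1
    refine ⟨p, w, hp, hpw, ?_, rfl⟩
    have e : val B [(2, 0), (1, p), (2, w), (1, p + w)] =
        val B [(2, 0), (1, j), (2, j + d), (1, v)] := by
      rw [← eall_E_val, hn]
      simp only [val, List.map_cons, List.map_nil, List.sum_cons, List.sum_nil]
      ring
    have hdd := dig_eq B [(2, 0), (1, p), (2, w), (1, p + w)] [(2, 0), (1, j), (2, j + d), (1, v)]
      (by simp only [tot, List.map_cons, List.map_nil, List.sum_cons, List.sum_nil]; omega)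
      (by simp only [tot, List.map_cons, List.map_nil, List.sum_cons, List.sum_nil]; omega) e
    have h0 := hdd 0
    have hw := hdd w
    have hwd := hdd (w + d)
    have hj := hdd j
    simp only [dig, List.map_cons, List.map_nil, List.sum_cons, List.sum_nil] at h0 hw hwd hj
    have hj1 : 1 ≤ j ∧ 1 ≤ v := by split_ifs at h0 <;> omega
    have hjd : j + d = w := by
      by_contra hne
      rw [if_neg hne] at hw
      have hjw : j = w := by
        by_contra hne2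
        rw [if_neg hne2] at hw
        split_ifs at hw <;> omega
      subst hjw
      split_ifs at hwd <;> omega
    have hjp : p = j := by
      split_ifs at hj <;> omega
    omega
  · rintro ⟨p, w, hp, hpw, hw, rfl⟩
    refine ⟨⟨p, w, hp, hpw, trivial, rfl⟩, ?_⟩
    refine ⟨2, rfl, (1 + 2 * B ^ d) * B ^ p + B ^ (p + w), ⟨_, ⟨_, rfl, _, ⟨p, rfl⟩, rfl⟩, _,
      ⟨p + w, rfl⟩, rfl⟩, ?_⟩
    unfold E
    rw [hw]
    ring

theorem df_Q1 (B : ℕ) (hB : 16 ≤ B) (hP : Df {n | ∃ k : ℕ, n = B ^ k}) : Df (Q1 B) := by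
  have h1 : Df (sadd {1} (smul (BP B) (sadd {B - 1} (smul {B} Set.univ)))) :=
    (df_lit 1).add ((df_BP B hP).mul ((df_lit _).add ((df_lit B).mul df_univ)))
  apply h1.congr
  ext n
  constructor
  · rintro ⟨z1, hz1, z2, ⟨u, ⟨k, hk, rfl⟩, v, ⟨v1, hv1, v2, ⟨b, hb, m, _, rfl⟩, rfl⟩, rfl⟩, hn⟩
    rw [Set.mem_singleton_iff] at hz1 hv1 hb
    subst hz1 hv1 hb
    refine ⟨k, m, hk, ?_⟩
    rw [hn]
    ring
  · rintro ⟨k, m, hk, rfl⟩
    refine ⟨1, rfl, B ^ k * ((B - 1) + B * m), ⟨B ^ k, ⟨k, hk, rfl⟩, (B - 1) + B * m,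
      ⟨B - 1, rfl, B * m, ⟨B, rfl, m, Set.mem_univ _, rfl⟩, rfl⟩, rfl⟩, ?_⟩
    ring

end Pool.Agent.H893R5.MC
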