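import Mathlib
import Pool.Agent.H893R5.MC.Defs

set_option autoImplicit false

namespace Pool.Agent.H893R5.MC

namespace EncT

/-- partial codes -/
def part (N : ℕ) (T : Finset ℕ) (x : ℕ → ℕ) : ℕ := ∑ i ∈ T, 2 ^ (N * x i + i)

/-- all partial codes with index set `T` -/
def Form (N : ℕ) (T : Finset ℕ) : Set ℕ := {n | ∃ x : ℕ → ℕ, n = part N T x}

/-- codes of the assignments with property `R` -/
def W (N : ℕ) (R : (ℕ → ℕ) → Prop) : Set ℕ := {n | ∃ x : ℕ → ℕ, R x ∧ n = enc N x}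

/-- `R` depends only on the values below `N` -/
def Loc (N : ℕ) (R : (ℕ → ℕ) → Prop) : Prop :=
  ∀ x y : ℕ → ℕ, (∀ i < N, x i = y i) → R x → R y

theorem exp_inj {N a b i j : ℕ} (hi : i < N) (hj : j < N) (h : N * a + i = N * b + j) :
    i = j ∧ a = b := by
  have hN : 0 < N := by omega
  have h1 : (N * a + i) % N = (N * b + j) % N := by rw [h]
  rw [Nat.mul_add_mod, Nat.mul_add_mod, Nat.mod_eq_of_lt hi, Nat.mod_eq_of_lt hj] at h1
  refine ⟨h1, ?_⟩
  subst h1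
  have h2 : N * a = N * b := by omega
  exact Nat.eq_of_mul_eq_mul_left hN h2

theorem enc_image (N : ℕ) (x : ℕ → ℕ) :
    enc N x = ∑ e ∈ (Finset.range N).image (fun i => N * x i + i), 2 ^ e := by
  rw [Finset.sum_image]
  · rfl
  · intro i hi j hj h
    exact (exp_inj (Finset.mem_range.1 hi) (Finset.mem_range.1 hj) h).1

theorem enc_inj {N : ℕ} {x y : ℕ → ℕ} (h : enc N x = enc N y) : ∀ i < N, x i = y i := by
  rw [enc_image, enc_image] at h
  have h1 := Finset.geomSum_injective (n := 2) le_rfl h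
  intro i hi
  have h2 : N * x i + i ∈ (Finset.range N).image (fun i => N * y i + i) := by
    rw [← h1]
    exact Finset.mem_image_of_mem (fun i => N * x i + i) (Finset.mem_range.2 hi)
  obtain ⟨j, hj, e⟩ := Finset.mem_image.1 h2
  obtain ⟨h3, h4⟩ := exp_inj (Finset.mem_range.1 hj) hi e
  subst h3
  exact h4.symm

theorem part_congr {N : ℕ} {T : Finset ℕ} {x y : ℕ → ℕ} (h : ∀ i ∈ T, x i = y i) :
    part N T x = part N T y :=
  Finset.sum_congr rfl fun i hi => by rw [h i hi]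

theorem enc_eq_part (N : ℕ) (x : ℕ → ℕ) : enc N x = part N (Finset.range N) x := rfl

theorem enc_congr {N : ℕ} {x y : ℕ → ℕ} (h : ∀ i < N, x i = y i) : enc N x = enc N y :=
  part_congr fun i hi => h i (Finset.mem_range.1 hi)

theorem enc_split {N : ℕ} {T : Finset ℕ} (hT : T ⊆ Finset.range N) (x : ℕ → ℕ) :
    enc N x = part N T x + part N (Finset.range N \ T) x := by
  rw [enc_eq_part, add_comm]
  exact (Finset.sum_sdiff hT).symm

theorem df_form {N : ℕ} (hP : Df {n | ∃ k : ℕ, n = (2 ^ N) ^ k}) (T : Finset ℕ) :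
    Df (Form N T) := by
  classical
  induction T using Finset.induction_on with
  | empty =>
    refine (df_lit 0).congr ?_
    ext n
    constructor
    · intro h
      exact ⟨fun _ => 0, by simpa [part] using h⟩
    · rintro ⟨x, hx⟩
      simpa [part] using hx
  | insert a T ha ih =>
    refine (((df_lit (2 ^ a)).mul hP).add ih).congr ?_
    ext n
    constructor
    · rintro ⟨u, ⟨v, hv, w, ⟨c, hc⟩, hu⟩, z, ⟨x, hx⟩, hn⟩
      refine ⟨fun i => if i = a then c else x i, ?_⟩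
      rw [part, Finset.sum_insert ha, hn, hu, hx, hc, Set.mem_singleton_iff.1 hv]
      congr 1
      · simp only [if_true]
        rw [pow_add, pow_mul, mul_comm]
      · refine part_congr fun i hi => ?_
        have : i ≠ a := fun h => ha (h ▸ hi)
        simp [this]
    · rintro ⟨x, hx⟩
      refine ⟨2 ^ a * (2 ^ N) ^ x a, ⟨2 ^ a, rfl, (2 ^ N) ^ x a, ⟨x a, rfl⟩, rfl⟩, part N T x,
        ⟨x, rfl⟩, ?_⟩
      rw [hx, part, Finset.sum_insert ha, pow_add, pow_mul, mul_comm (2 ^ a)]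
      rfl

/-- local sets -/
def S (N : ℕ) (T : Finset ℕ) (R : (ℕ → ℕ) → Prop) : Set ℕ := {n | ∃ x : ℕ → ℕ, R x ∧ n = part N T x}

theorem W_eq {N : ℕ} {T : Finset ℕ} (hT : T ⊆ Finset.range N) {R : (ℕ → ℕ) → Prop}
    (hR : ∀ x y : ℕ → ℕ, (∀ i ∈ T, x i = y i) → R x → R y) :
    W N R = sadd (S N T R) (Form N (Finset.range N \ T)) := by
  classical
  ext n
  constructor
  · rintro ⟨x, hx, hn⟩
    exact ⟨_, ⟨x, hx, rfl⟩, _, ⟨x, rfl⟩, by rw [hn, enc_split hT]⟩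
  · rintro ⟨u, ⟨x, hx, hu⟩, v, ⟨y, hv⟩, hn⟩
    refine ⟨fun i => if i ∈ T then x i else y i, hR x _ (fun i hi => ?_) hx, ?_⟩
    · simp [hi]
    · rw [hn, enc_split hT, hu, hv]
      congr 1
      · exact part_congr fun i hi => by simp [hi]
      · exact part_congr fun i hi => by simp [(Finset.mem_sdiff.1 hi).2]

theorem df_W {N : ℕ} (hP : Df {n | ∃ k : ℕ, n = (2 ^ N) ^ k}) {T : Finset ℕ}
    (hT : T ⊆ Finset.range N) {R : (ℕ → ℕ) → Prop}
    (hR : ∀ x y : ℕ → ℕ, (∀ i ∈ T, x i = y i) → R x → R y) (h : Df (S N T R)) :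
    Df (W N R) := by
  rw [W_eq hT hR]
  exact h.add (df_form hP _)

theorem loc_of {N : ℕ} {T : Finset ℕ} (hT : T ⊆ Finset.range N) {R : (ℕ → ℕ) → Prop}
    (hR : ∀ x y : ℕ → ℕ, (∀ i ∈ T, x i = y i) → R x → R y) : Loc N R :=
  fun x y h => hR x y fun i hi => h i (Finset.mem_range.1 (hT hi))

theorem W_inter {N : ℕ} {R₁ R₂ : (ℕ → ℕ) → Prop} (h₂ : Loc N R₂) :
    W N (fun x => R₁ x ∧ R₂ x) = W N R₁ ∩ W N R₂ := by
  ext n
  constructor
  · rintro ⟨x, ⟨h1, h2⟩, hn⟩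
    exact ⟨⟨x, h1, hn⟩, ⟨x, h2, hn⟩⟩
  · rintro ⟨⟨x, h1, hn⟩, ⟨y, h2, hn'⟩⟩
    refine ⟨x, ⟨h1, h₂ y x (fun i hi => (enc_inj (hn.symm.trans hn') i hi).symm) h2⟩, hn⟩

/-- definable and local -/
def DL (N : ℕ) (R : (ℕ → ℕ) → Prop) : Prop := Df (W N R) ∧ Loc N R

theorem DL.and {N : ℕ} {R₁ R₂ : (ℕ → ℕ) → Prop} (h₁ : DL N R₁) (h₂ : DL N R₂) :
    DL N (fun x => R₁ x ∧ R₂ x) := by
  refine ⟨?_, fun x y h hx => ⟨h₁.2 x y h hx.1, h₂.2 x y h hx.2⟩⟩
  rw [W_inter h₂.2]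
  exact h₁.1.inter h₂.1

theorem dl_of {N : ℕ} (hP : Df {n | ∃ k : ℕ, n = (2 ^ N) ^ k}) {T : Finset ℕ}
    (hT : T ⊆ Finset.range N) {R : (ℕ → ℕ) → Prop}
    (hR : ∀ x y : ℕ → ℕ, (∀ i ∈ T, x i = y i) → R x → R y) (h : Df (S N T R)) :
    DL N R := ⟨df_W hP hT hR h, loc_of hT hR⟩

theorem dl_true {N : ℕ} (hP : Df {n | ∃ k : ℕ, n = (2 ^ N) ^ k}) : DL N (fun _ => True) := by
  refine dl_of hP (T := ∅) (by simp) (fun _ _ _ _ => trivial) ((df_lit 0).congr ?_)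
  ext n
  constructor
  · intro h
    exact ⟨fun _ => 0, trivial, by simpa [part] using h⟩
  · rintro ⟨x, _, hx⟩
    simpa [part] using hx

theorem dl_one {N : ℕ} (hP : Df {n | ∃ k : ℕ, n = (2 ^ N) ^ k}) {i : ℕ} (hi : i < N) :
    DL N (fun x => x i = 1) := by
  refine dl_of hP (T := {i}) (by simpa using hi) (fun x y h hx => ?_) ?_
  · rw [← h i (by simp)]; exact hx
  · refine (df_lit (2 ^ (N + i))).congr ?_
    ext n
    constructor
    · intro h
      refine ⟨fun _ => 1, rfl, ?_⟩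
      rw [Set.mem_singleton_iff] at h
      simp [part, h]
    · rintro ⟨x, hx, hn⟩
      rw [Set.mem_singleton_iff, hn]
      simp [part, hx]

theorem dl_eq {N : ℕ} (hP : Df {n | ∃ k : ℕ, n = (2 ^ N) ^ k}) {i j : ℕ} (hi : i < N)
    (hj : j < N) (hij : i ≠ j) : DL N (fun x => x i = x j) := by
  refine dl_of hP (T := {i, j}) ?_ (fun x y h hx => ?_) ?_
  · intro a ha
    simp only [Finset.mem_insert, Finset.mem_singleton] at ha
    rcases ha with rfl | rfl <;> simpa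
  · rw [← h i (by simp), ← h j (by simp)]; exact hx
  · refine ((df_lit (2 ^ i + 2 ^ j)).mul hP).congr ?_
    ext n
    constructor
    · rintro ⟨u, hu, v, ⟨c, hc⟩, hn⟩
      refine ⟨fun _ => c, rfl, ?_⟩
      rw [hn, Set.mem_singleton_iff.1 hu, hc, part, Finset.sum_pair hij, pow_add, pow_add, pow_mul]
      ring
    · rintro ⟨x, hx, hn⟩
      refine ⟨_, rfl, (2 ^ N) ^ x i, ⟨x i, rfl⟩, ?_⟩
      rw [hn, part, Finset.sum_pair hij, ← hx, pow_add, pow_add, pow_mul]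
      ring

theorem part_four (N m : ℕ) (x : ℕ → ℕ) :
    part N {m, m + 1, m + 2, m + 3} x = 2 ^ m * ((2 ^ N) ^ x m + 2 * (2 ^ N) ^ x (m + 1) +
      4 * (2 ^ N) ^ x (m + 2) + 8 * (2 ^ N) ^ x (m + 3)) := by
  rw [part, Finset.sum_insert (by simp), Finset.sum_insert (by simp), Finset.sum_insert (by simp),
    Finset.sum_singleton]
  simp only [pow_add, pow_mul]
  ring

theorem four_sub {N m : ℕ} (hm : m + 4 ≤ N) :
    ({m, m + 1, m + 2, m + 3} : Finset ℕ) ⊆ Finset.range N := by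
  intro a ha
  simp only [Finset.mem_insert, Finset.mem_singleton] at ha
  rw [Finset.mem_range]
  omega

/-- assignment with four given values at `m, ..., m+3` -/
def put (m a b c d : ℕ) (x : ℕ → ℕ) : ℕ → ℕ := fun i =>
  if i = m then a else if i = m + 1 then b else if i = m + 2 then c else if i = m + 3 then d else x i

theorem put_0 (m a b c d : ℕ) (x : ℕ → ℕ) : put m a b c d x m = a := by simp [put]
theorem put_1 (m a b c d : ℕ) (x : ℕ → ℕ) : put m a b c d x (m + 1) = b := by simp [put]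
theorem put_2 (m a b c d : ℕ) (x : ℕ → ℕ) : put m a b c d x (m + 2) = c := by simp [put]
theorem put_3 (m a b c d : ℕ) (x : ℕ → ℕ) : put m a b c d x (m + 3) = d := by simp [put]
theorem put_lt (m a b c d : ℕ) (x : ℕ → ℕ) {i : ℕ} (h : i < m) : put m a b c d x i = x i := by
  have h0 : i ≠ m := by omega
  have h1 : i ≠ m + 1 := by omega
  have h2 : i ≠ m + 2 := by omega
  have h3 : i ≠ m + 3 := by omega
  simp [put, h0, h1, h2, h3]

/-- sum block -/
def BS (m : ℕ) (x : ℕ → ℕ) : Prop := x m = 0 ∧ x (m + 3) = x (m + 1) + x (m + 2)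

/-- quad block -/
def BQ (m : ℕ) (x : ℕ → ℕ) : Prop :=
  x (m + 1) = 0 ∧ x (m + 3) = x m + x (m + 2) ∧ QR (x m) (x (m + 2))

theorem dl_BS {N : ℕ} (hP : Df {n | ∃ k : ℕ, n = (2 ^ N) ^ k}) {m : ℕ} (hm : m + 4 ≤ N) :
    DL N (BS m) := by
  refine dl_of hP (T := {m, m + 1, m + 2, m + 3}) (four_sub hm) (fun x y h hx => ?_) ?_
  · rw [BS, ← h m (by simp), ← h (m + 1) (by simp), ← h (m + 2) (by simp), ← h (m + 3) (by simp)]
    exact hx
  · refine ((df_lit (2 ^ m)).mul (((df_lit 1).add ((df_lit 4).mul hP)).mul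
      ((df_lit 1).add ((df_lit 2).mul hP)))).congr ?_
    ext n
    constructor
    · rintro ⟨u, hu, v, ⟨c, ⟨c1, hc1, c2, ⟨c3, hc3, c4, ⟨b, hb⟩, hc2⟩, hc⟩, d,
        ⟨d1, hd1, d2, ⟨d3, hd3, d4, ⟨a, ha⟩, hd2⟩, hd⟩, hv⟩, hn⟩
      rw [Set.mem_singleton_iff] at hu hc1 hc3 hd1 hd3
      refine ⟨put m 0 a b (a + b) (fun _ => 0), ?_, ?_⟩
      · rw [BS, put_0, put_1, put_2, put_3]
        exact ⟨rfl, rfl⟩
      · rw [part_four, put_0, put_1, put_2, put_3, hn, hu, hv, hc, hd, hc1, hd1, hc2, hd2, hc3, hd3,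
          hb, ha, pow_add, pow_zero]
        ring
    · rintro ⟨x, ⟨h0, h3⟩, hn⟩
      rw [part_four, h0, h3] at hn
      refine ⟨_, rfl, (1 + 4 * (2 ^ N) ^ x (m + 2)) * (1 + 2 * (2 ^ N) ^ x (m + 1)),
        ⟨_, ⟨1, rfl, _, ⟨4, rfl, _, ⟨_, rfl⟩, rfl⟩, rfl⟩, _,
          ⟨1, rfl, _, ⟨2, rfl, _, ⟨_, rfl⟩, rfl⟩, rfl⟩, rfl⟩, ?_⟩
      rw [hn, pow_add, pow_zero]
      ring

theorem dl_BQ {N : ℕ} (hP : Df {n | ∃ k : ℕ, n = (2 ^ N) ^ k})
    (hQ : Df {n | ∃ p w, QR p w ∧ n = 2 + (2 ^ N) ^ p + 4 * (2 ^ N) ^ w + 8 * (2 ^ N) ^ (p + w)})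
    {m : ℕ} (hm : m + 4 ≤ N) : DL N (BQ m) := by
  refine dl_of hP (T := {m, m + 1, m + 2, m + 3}) (four_sub hm) (fun x y h hx => ?_) ?_
  · rw [BQ, ← h m (by simp), ← h (m + 1) (by simp), ← h (m + 2) (by simp), ← h (m + 3) (by simp)]
    exact hx
  · refine ((df_lit (2 ^ m)).mul hQ).congr ?_
    ext n
    constructor
    · rintro ⟨u, hu, v, ⟨p, w, hq, hv⟩, hn⟩
      rw [Set.mem_singleton_iff] at hu
      refine ⟨put m p 0 w (p + w) (fun _ => 0), ?_, ?_⟩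
      · rw [BQ, put_0, put_1, put_2, put_3]
        exact ⟨rfl, rfl, hq⟩
      · rw [part_four, put_0, put_1, put_2, put_3, hn, hu, hv, pow_zero]
        ring
    · rintro ⟨x, ⟨h1, h3, hq⟩, hn⟩
      rw [part_four, h1, h3] at hn
      refine ⟨_, rfl, _, ⟨x m, x (m + 2), hq, rfl⟩, ?_⟩
      rw [hn, pow_zero]
      ring

/-- the constraint with its auxiliary block at `m` -/
def RC (m : ℕ) (x : ℕ → ℕ) : Con → Prop
  | .add i j l => ((BS m x ∧ x (m + 1) = x i) ∧ x (m + 2) = x j) ∧ x (m + 3) = x l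
  | .one i => x i = 1
  | .quad i j => (BQ m x ∧ x m = x i) ∧ x (m + 2) = x j

theorem dl_RC {N : ℕ} (hP : Df {n | ∃ k : ℕ, n = (2 ^ N) ^ k})
    (hQ : Df {n | ∃ p w, QR p w ∧ n = 2 + (2 ^ N) ^ p + 4 * (2 ^ N) ^ w + 8 * (2 ^ N) ^ (p + w)})
    {k m : ℕ} (hk : k ≤ m) (hm : m + 4 ≤ N) (c : Con) (hc : c.Below k) :
    DL N (fun x => RC m x c) := by
  cases c with
  | add i j l =>
    obtain ⟨hi, hj, hl⟩ := hc
    exact (((dl_BS hP hm).and (dl_eq hP (by omega) (by omega) (by omega))).and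
      (dl_eq hP (by omega) (by omega) (by omega))).and (dl_eq hP (by omega) (by omega) (by omega))
  | one i => exact dl_one hP (lt_of_lt_of_le hc (by omega))
  | quad i j =>
    obtain ⟨hi, hj⟩ := hc
    exact ((dl_BQ hP hQ hm).and (dl_eq hP (by omega) (by omega) (by omega))).and
      (dl_eq hP (by omega) (by omega) (by omega))

theorem RC_holds {m : ℕ} {x : ℕ → ℕ} {c : Con} (h : RC m x c) : c.Holds x := by
  cases c with
  | add i j l =>
    obtain ⟨⟨⟨⟨_, h0⟩, h1⟩, h2⟩, h3⟩ := h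
    show x i + x j = x l
    rw [← h1, ← h2, ← h3, h0]
  | one i => exact h
  | quad i j =>
    obtain ⟨⟨⟨_, _, h0⟩, h1⟩, h2⟩ := h
    show QR (x i) (x j)
    rw [← h1, ← h2]
    exact h0

theorem RC_exists {k m : ℕ} (hk : k ≤ m) {x : ℕ → ℕ} {c : Con} (hc : c.Below k) (h : c.Holds x) :
    ∃ y : ℕ → ℕ, (∀ i < m, y i = x i) ∧ RC m y c := by
  cases c with
  | add i j l =>
    obtain ⟨hi, hj, hl⟩ := hc
    refine ⟨put m 0 (x i) (x j) (x i + x j) x, fun a ha => put_lt _ _ _ _ _ _ ha, ?_⟩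
    simp only [RC, BS]
    rw [put_0, put_1, put_2, put_3,
      put_lt _ _ _ _ _ _ (lt_of_lt_of_le hi hk), put_lt _ _ _ _ _ _ (lt_of_lt_of_le hj hk),
      put_lt _ _ _ _ _ _ (lt_of_lt_of_le hl hk)]
    exact ⟨⟨⟨⟨rfl, rfl⟩, rfl⟩, rfl⟩, h⟩
  | one i => exact ⟨x, fun _ _ => rfl, h⟩
  | quad i j =>
    obtain ⟨hi, hj⟩ := hc
    refine ⟨put m (x i) 0 (x j) (x i + x j) x, fun a ha => put_lt _ _ _ _ _ _ ha, ?_⟩
    simp only [RC, BQ]
    rw [put_0, put_1, put_2, put_3,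
      put_lt _ _ _ _ _ _ (lt_of_lt_of_le hi hk), put_lt _ _ _ _ _ _ (lt_of_lt_of_le hj hk)]
    exact ⟨⟨⟨rfl, rfl, h⟩, rfl⟩, rfl⟩

theorem RC_congr {k m : ℕ} (hk : k ≤ m) {x y : ℕ → ℕ} {c : Con} (hc : c.Below k)
    (h : ∀ i < m + 4, y i = x i) (hx : RC m x c) : RC m y c := by
  cases c with
  | add i j l =>
    obtain ⟨hi, hj, hl⟩ := hc
    simp only [RC, BS] at hx ⊢
    rw [h m (by omega), h (m + 1) (by omega), h (m + 2) (by omega), h (m + 3) (by omega),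
      h i (by omega), h j (by omega), h l (by omega)]
    exact hx
  | one i =>
    have hi : i < k := hc
    show y i = 1
    rw [h i (by omega)]
    exact hx
  | quad i j =>
    obtain ⟨hi, hj⟩ := hc
    simp only [RC, BQ] at hx ⊢
    rw [h m (by omega), h (m + 1) (by omega), h (m + 2) (by omega), h (m + 3) (by omega),
      h i (by omega), h j (by omega)]
    exact hx

theorem holds_congr {k : ℕ} {x y : ℕ → ℕ} {c : Con} (hc : c.Below k)
    (h : ∀ i < k, y i = x i) (hx : c.Holds x) : c.Holds y := by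
  cases c with
  | add i j l =>
    obtain ⟨hi, hj, hl⟩ := hc
    show y i + y j = y l
    rw [h i hi, h j hj, h l hl]
    exact hx
  | one i =>
    show y i = 1
    rw [h i hc]
    exact hx
  | quad i j =>
    obtain ⟨hi, hj⟩ := hc
    show QR (y i) (y j)
    rw [h i hi, h j hj]
    exact hx

/-- all constraints with their blocks -/
def RL (x : ℕ → ℕ) : List Con → ℕ → Prop
  | [], _ => True
  | c :: cs, m => RC m x c ∧ RL x cs (m + 4)

theorem dl_RL {N : ℕ} (hP : Df {n | ∃ k : ℕ, n = (2 ^ N) ^ k})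
    (hQ : Df {n | ∃ p w, QR p w ∧ n = 2 + (2 ^ N) ^ p + 4 * (2 ^ N) ^ w + 8 * (2 ^ N) ^ (p + w)})
    {k : ℕ} : ∀ (L : List Con) (m : ℕ), k ≤ m → m + 4 * L.length ≤ N → (∀ c ∈ L, c.Below k) →
    DL N (fun x => RL x L m)
  | [], _, _, _, _ => dl_true hP
  | c :: cs, m, hk, hm, hc => by
    rw [List.length_cons] at hm
    exact (dl_RC hP hQ hk (by omega) c (hc c (by simp))).and
      (dl_RL hP hQ cs (m + 4) (by omega) (by omega) fun c hc' => hc c (by simp [hc']))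

theorem RL_holds {x : ℕ → ℕ} : ∀ (L : List Con) (m : ℕ), RL x L m → ∀ c ∈ L, c.Holds x
  | [], _, _, c, hc => by simp at hc
  | c :: cs, m, h, d, hd => by
    rcases List.mem_cons.1 hd with rfl | hd
    · exact RC_holds h.1
    · exact RL_holds cs (m + 4) h.2 d hd

theorem RL_exists {k : ℕ} : ∀ (L : List Con) (m : ℕ), k ≤ m → (∀ c ∈ L, c.Below k) →
    ∀ x : ℕ → ℕ, (∀ c ∈ L, c.Holds x) → ∃ y : ℕ → ℕ, (∀ i < m, y i = x i) ∧ RL y L m
  | [], _, _, _, x, _ => ⟨x, fun _ _ => rfl, trivial⟩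
  | c :: cs, m, hk, hc, x, hx => by
    obtain ⟨y, hy, hyc⟩ := RC_exists hk (hc c (by simp)) (hx c (by simp))
    obtain ⟨z, hz, hzc⟩ := RL_exists cs (m + 4) (by omega) (fun d hd => hc d (by simp [hd])) y
      (fun d hd => holds_congr (hc d (by simp [hd])) (fun i hi => hy i (by omega))
        (hx d (by simp [hd])))
    refine ⟨z, fun i hi => ?_, ?_, hzc⟩
    · rw [hz i (by omega), hy i hi]
    · exact RC_congr hk (hc c (by simp)) hz hyc

end EncT

open EncT in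
theorem enc_tree (k : ℕ) (L : List Con) (hk : 1 ≤ k) (hL : ∀ c ∈ L, c.Below k)
    (hPB : ∀ N, 2 ≤ N → Df {n | ∃ k : ℕ, n = (2 ^ N) ^ k})
    (hQ : ∀ B, 16 ≤ B → Df {n | ∃ k : ℕ, n = B ^ k} →
      Df {n | ∃ p w, QR p w ∧ n = 2 + B ^ p + 4 * B ^ w + 8 * B ^ (p + w)}) :
    ∃ (t : T) (N : ℕ), ∀ n,
      (∃ x : ℕ → ℕ, x 0 = n ∧ ∀ c ∈ L, c.Holds x) ↔ (t.ev (2 ^ (N * n))).Nonempty := by
  obtain ⟨N, hN⟩ : ∃ N, N = k + 4 * L.length + 4 := ⟨_, rfl⟩
  have hP := hPB N (by omega)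
  have h16 : 16 ≤ 2 ^ N := by
    calc 16 = 2 ^ 4 := by norm_num
      _ ≤ 2 ^ N := Nat.pow_le_pow_right (by norm_num) (by omega)
  have hQ' := hQ (2 ^ N) h16 hP
  obtain ⟨⟨t₁, h₁⟩, hloc⟩ := dl_RL hP hQ' (k := k) L k le_rfl (by omega) hL
  obtain ⟨t₂, h₂⟩ := df_form hP (Finset.range N \ {0})
  have hsub : ({0} : Finset ℕ) ⊆ Finset.range N := by
    intro a ha
    rw [Finset.mem_singleton.1 ha, Finset.mem_range]
    omega
  refine ⟨.inter t₁ (.add .par t₂), N, fun n => ?_⟩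
  have hev : (T.inter t₁ (.add .par t₂)).ev (2 ^ (N * n)) =
      W N (fun x => RL x L k) ∩ sadd {2 ^ (N * n)} (Form N (Finset.range N \ {0})) := by
    show t₁.ev _ ∩ sadd {2 ^ (N * n)} (t₂.ev _) = _
    rw [h₁, h₂]
  rw [hev]
  constructor
  · rintro ⟨x, hx0, hx⟩
    obtain ⟨y, hy, hyL⟩ := RL_exists L k le_rfl hL x hx
    refine ⟨enc N y, ⟨y, hyL, rfl⟩, 2 ^ (N * n), rfl, _, ⟨y, rfl⟩, ?_⟩
    rw [enc_split hsub, part, Finset.sum_singleton, hy 0 (by omega), hx0, add_zero]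
  · rintro ⟨e, ⟨x, hx, he⟩, u, hu, v, ⟨y, hv⟩, he'⟩
    refine ⟨x, ?_, RL_holds L k hx⟩
    have h3 : enc N x = enc N (fun i => if i = 0 then n else y i) := by
      have h5 : part N {0} (fun i => if i = 0 then n else y i) = 2 ^ (N * n) := by
        simp [part]
      have h6 : part N (Finset.range N \ {0}) (fun i => if i = 0 then n else y i) =
          part N (Finset.range N \ {0}) y := by
        refine part_congr fun i hi => ?_
        have : i ≠ 0 := by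
          intro h
          rw [h] at hi
          simp at hi
        simp [this]
      rw [← he, he', hv, Set.mem_singleton_iff.1 hu, enc_split hsub, h5, h6]
    have h4 := enc_inj h3 0 (by omega)
    simpa using h4

end Pool.Agent.H893R5.MC
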