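import Mathlib
import Pool.Agent.H893R5.MC.Defs
import Pool.Agent.H893R5.MC.Dig

/-!
Task ML: divisibility of `B^w+1` by `B^s+1`, and the main lemma on the coded relation.
-/

set_option autoImplicit false

namespace Pool.Agent.H893R5.MC

theorem pow_succ_dvd (B s w : ℕ) (hB : 2 ≤ B) (hs : 1 ≤ s) (h : B ^ s + 1 ∣ B ^ w + 1) :
    s ∣ w ∧ Odd (w / s) := by
  have hw : s * (w / s) + w % s = w := Nat.div_add_mod w s
  set t := w / s with ht
  set r := w % s with hr
  have hrs : r < s := Nat.mod_lt _ (by omega)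
  have hBr : B ^ r < B ^ s := Nat.pow_lt_pow_right (by omega) hrs
  have hBr1 : 1 ≤ B ^ r := Nat.one_le_pow _ _ (by omega)
  -- over the integers
  have hZ : ((B : ℤ) ^ s + 1) ∣ (B : ℤ) ^ w + 1 := by
    have := Int.natCast_dvd_natCast.mpr h
    push_cast at this
    exact this
  have hpow : ((B : ℤ) ^ s + 1) ∣ ((B : ℤ) ^ s) ^ t - (-1) ^ t := by
    have := sub_dvd_pow_sub_pow ((B : ℤ) ^ s) (-1) t
    rwa [sub_neg_eq_add] at this
  have hBw : (B : ℤ) ^ w = ((B : ℤ) ^ s) ^ t * (B : ℤ) ^ r := by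
    rw [← pow_mul, ← pow_add, hw]
  have key : ((B : ℤ) ^ s + 1) ∣ (-1) ^ t * (B : ℤ) ^ r + 1 := by
    have h1 : (-1 : ℤ) ^ t * (B : ℤ) ^ r + 1 =
        ((B : ℤ) ^ w + 1) - (((B : ℤ) ^ s) ^ t - (-1) ^ t) * (B : ℤ) ^ r := by
      rw [hBw]; ring
    rw [h1]
    exact dvd_sub hZ (Dvd.dvd.mul_right hpow _)
  rcases Nat.even_or_odd t with he | ho
  · exfalso
    rw [he.neg_one_pow, one_mul] at key
    have h2 : B ^ s + 1 ∣ B ^ r + 1 := by
      have : (((B ^ s + 1 : ℕ)) : ℤ) ∣ ((B ^ r + 1 : ℕ) : ℤ) := by push_cast; exact key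
      exact Int.natCast_dvd_natCast.mp this
    have h3 := Nat.le_of_dvd (by omega) h2
    omega
  · rw [ho.neg_one_pow] at key
    have h2 : ((B ^ s + 1 : ℕ) : ℤ) ∣ ((B ^ r - 1 : ℕ) : ℤ) := by
      rw [Nat.cast_sub hBr1]
      push_cast
      have h3 : (B : ℤ) ^ r - 1 = -((-1) * (B : ℤ) ^ r + 1) := by ring
      rw [h3]
      exact (dvd_neg).mpr key
    have h3 : B ^ s + 1 ∣ B ^ r - 1 := Int.natCast_dvd_natCast.mp h2
    have h4 : B ^ r - 1 = 0 := by
      by_contra hne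
      have := Nat.le_of_dvd (by omega) h3
      omega
    have h5 : r = 0 := by
      by_contra hne
      have h6 : B ^ 1 ≤ B ^ r := Nat.pow_le_pow_right (by omega) (by omega)
      rw [pow_one] at h6
      omega
    exact ⟨Nat.dvd_of_mod_eq_zero h5, ho⟩

theorem main_lemma (B p w p' s k m : ℕ) (hB : 16 ≤ B) (hp : 1 ≤ p) (hpw : p < w) (hp' : 1 ≤ p')
    (hs : p' < s) (hk : 1 ≤ k)
    (e : E B p w = E B p' s * (1 + (B - 1) * B ^ k + B ^ (k + 1) * m)) :
    p' = p ∧ s < w ∧ s ∣ w ∧ Odd (w / s) := by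
  obtain ⟨b, rfl⟩ : ∃ b, B = b + 1 := ⟨B - 1, by omega⟩
  have hb : b + 1 - 1 = b := by omega
  rw [hb] at e
  set B := b + 1 with hBdef
  -- the congruence
  have hcong : E B p w + 2 * B ^ k ≡ E B p' s [MOD B ^ (k + 1)] := by
    obtain ⟨p1, rfl⟩ : ∃ p1, p' = p1 + 1 := ⟨p' - 1, by omega⟩
    obtain ⟨s1, rfl⟩ : ∃ s1, s = s1 + 1 := ⟨s - 1, by omega⟩
    have h1 : E B p w + 2 * B ^ k + B ^ (k + 1) * (B ^ p1 + 2 * B ^ s1 + B ^ (p1 + 1 + s1)) =
        E B (p1 + 1) (s1 + 1) + B ^ (k + 1) * (E B (p1 + 1) (s1 + 1) * (m + 1)) := by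
      have h2 : B ^ (k + 1) * (B ^ p1 + 2 * B ^ s1 + B ^ (p1 + 1 + s1)) + 2 * B ^ k =
          B ^ k * E B (p1 + 1) (s1 + 1) := by
        unfold E; ring
      have h3 : B ^ (k + 1) = b * B ^ k + B ^ k := by
        rw [pow_succ]
        have : B = b + 1 := rfl
        nth_rw 2 [this]
        ring
      calc E B p w + 2 * B ^ k + B ^ (k + 1) * (B ^ p1 + 2 * B ^ s1 + B ^ (p1 + 1 + s1))
          = E B p w + (B ^ (k + 1) * (B ^ p1 + 2 * B ^ s1 + B ^ (p1 + 1 + s1)) + 2 * B ^ k) := by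
            ring
        _ = E B (p1 + 1) (s1 + 1) * (1 + b * B ^ k + B ^ (k + 1) * m) +
              B ^ k * E B (p1 + 1) (s1 + 1) := by rw [h2, e]
        _ = E B (p1 + 1) (s1 + 1) * (1 + (b * B ^ k + B ^ k) + B ^ (k + 1) * m) := by ring
        _ = E B (p1 + 1) (s1 + 1) * (1 + B ^ (k + 1) + B ^ (k + 1) * m) := by rw [← h3]
        _ = _ := by ring
    have h4 : E B p w + 2 * B ^ k ≡
        E B p w + 2 * B ^ k + B ^ (k + 1) * (B ^ p1 + 2 * B ^ s1 + B ^ (p1 + 1 + s1))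
          [MOD B ^ (k + 1)] := by
      unfold Nat.ModEq
      rw [Nat.add_mul_mod_self_left]
    have h5 : E B (p1 + 1) (s1 + 1) + B ^ (k + 1) * (E B (p1 + 1) (s1 + 1) * (m + 1)) ≡
        E B (p1 + 1) (s1 + 1) [MOD B ^ (k + 1)] := by
      unfold Nat.ModEq
      rw [Nat.add_mul_mod_self_left]
    rw [h1] at h4
    exact h4.trans h5
  have hval : val B [(2, 0), (1, p), (2, w), (1, p + w), (2, k)] = E B p w + 2 * B ^ k := by
    simp only [val, E, List.map_cons, List.map_nil, List.sum_cons, List.sum_nil]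
    ring
  have hval' : val B [(2, 0), (1, p'), (2, s), (1, p' + s)] = E B p' s := by
    simp only [val, E, List.map_cons, List.map_nil, List.sum_cons, List.sum_nil]
    ring
  rw [← hval, ← hval'] at hcong
  have hd : ∀ j, j ≤ k → dig [(2, 0), (1, p), (2, w), (1, p + w), (2, k)] j =
      dig [(2, 0), (1, p'), (2, s), (1, p' + s)] j := fun j hj =>
    dig_eq_mod B _ _ (by simp only [tot, List.map_cons, List.map_nil, List.sum_cons, List.sum_nil]; omega)
      (by simp only [tot, List.map_cons, List.map_nil, List.sum_cons, List.sum_nil]; omega) k hcong j hj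
  simp only [dig, List.map_cons, List.map_nil, List.sum_cons, List.sum_nil] at hd
  have hk' := hd k le_rfl
  have hsk : s = k := by
    split_ifs at hk' <;> omega
  have hpk : p ≠ k ∧ w ≠ k ∧ p + w ≠ k := by
    split_ifs at hk' <;> omega
  obtain ⟨hpk1, hwk, hpwk⟩ := hpk
  subst hsk
  have hp2 := hd p' hs.le
  have hpp : p = p' := by
    by_contra hne
    have h3 : p + w = p' := by
      split_ifs at hp2 <;> omega
    have h4 := hd p (by omega)
    split_ifs at h4 <;> omega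
  subst hpp
  have hwk2 : s < w := by
    by_contra hcon
    have h5 := hd w (by omega)
    split_ifs at h5 <;> omega
  have hfac : ∀ a c, E B a c = (2 + B ^ a) * (B ^ c + 1) := by
    intro a c
    unfold E
    ring
  rw [hfac, hfac, mul_assoc] at e
  have hcan : B ^ w + 1 = (B ^ s + 1) * (1 + b * B ^ s + B ^ (s + 1) * m) :=
    Nat.eq_of_mul_eq_mul_left (by positivity) e
  have hdv : B ^ s + 1 ∣ B ^ w + 1 := ⟨_, hcan⟩
  have := pow_succ_dvd B s w (by omega) (by omega) hdv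
  exact ⟨rfl, hwk2, this.1, this.2⟩

end Pool.Agent.H893R5.MC
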