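import Mathlib
import Pool.Agent.H893R5.MC.Defs

set_option autoImplicit false

namespace Pool.Agent.H893R5.MC

theorem nt_down_iff (d p w : ℕ) :
    down (fun p w => w = p + d + 1) p w ↔
      p + d + 1 < w ∧ (p + d + 1) ∣ w ∧ Odd (w / (p + d + 1)) := by
  constructor
  · rintro ⟨s, _, h2, h3, h4, h5⟩
    subst h5
    exact ⟨h2, h3, h4⟩
  · rintro ⟨h1, h2, h3⟩
    exact ⟨p + d + 1, by omega, h1, h2, h3, rfl⟩

theorem nt (p w : ℕ) (hp : 1 ≤ p) :
    (((down (fun p w => w = p + 1) p w ∧ down (fun p w => w = p + 3) p w)) ∧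
      ¬ down (fun p w => down (fun p w => w = p + 1) p w ∧ down (fun p w => w = p + 3) p w) p w) ↔
    QR p w := by
  have D1 : ∀ w, down (fun p w => w = p + 1) p w ↔
      p + 1 < w ∧ (p + 1) ∣ w ∧ Odd (w / (p + 1)) := fun w => nt_down_iff 0 p w
  have D3 : ∀ w, down (fun p w => w = p + 3) p w ↔
      p + 3 < w ∧ (p + 3) ∣ w ∧ Odd (w / (p + 3)) := fun w => nt_down_iff 2 p w
  constructor
  · rintro ⟨⟨h1, h3⟩, hn⟩
    rw [D1] at h1
    rw [D3] at h3
    obtain ⟨h11, ⟨a, ha⟩, h13⟩ := h1
    obtain ⟨h31, ⟨b, hb⟩, h33⟩ := h3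
    have ha' : w / (p + 1) = a := by
      rw [ha]; exact Nat.mul_div_cancel_left a (by omega)
    have hb' : w / (p + 3) = b := by
      rw [hb]; exact Nat.mul_div_cancel_left b (by omega)
    rw [ha'] at h13
    rw [hb'] at h33
    have hpe : Even p := by
      by_contra hodd
      rw [Nat.not_even_iff_odd] at hodd
      obtain ⟨c, hc⟩ := hodd
      obtain ⟨a', ha'⟩ := h13
      obtain ⟨b', hb'⟩ := h33
      have e1 : (c + 1) * (2 * a' + 1) = (c + 2) * (2 * b' + 1) := by
        have : (p + 1) * a = (p + 3) * b := by rw [← ha, hb]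
        rw [hc, ha', hb'] at this
        have h2 : 2 * ((c + 1) * (2 * a' + 1)) = 2 * ((c + 2) * (2 * b' + 1)) := by
          calc 2 * ((c + 1) * (2 * a' + 1)) = (2 * c + 1 + 1) * (2 * a' + 1) := by ring
            _ = (2 * c + 1 + 3) * (2 * b' + 1) := this
            _ = 2 * ((c + 2) * (2 * b' + 1)) := by ring
        omega
      have e2 : (c + 1) * (2 * a' + 1) = 2 * ((c + 1) * a') + (c + 1) := by ring
      have e3 : (c + 2) * (2 * b' + 1) = 2 * ((c + 2) * b') + (c + 2) := by ring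
      rw [e2, e3] at e1
      omega
    have hp2 : 2 ≤ p := by
      rcases hpe with ⟨k, hk⟩
      omega
    refine ⟨hpe, hp2, ?_⟩
    have hco : Nat.Coprime (p + 1) (p + 3) := by
      have h1 : p + 3 = 2 + (p + 1) := by omega
      rw [h1, Nat.coprime_add_self_right, Nat.coprime_two_right]
      exact hpe.add_one
    have hdvd : (p + 1) * (p + 3) ∣ w :=
      Nat.Coprime.mul_dvd_of_dvd_of_dvd hco ⟨a, ha⟩ ⟨b, hb⟩
    by_contra hne
    apply hn
    obtain ⟨c, hc⟩ := hdvd
    have hcpos : 0 < c := by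
      rcases Nat.eq_zero_or_pos c with h | h
      · rw [h, Nat.mul_zero] at hc
        omega
      · exact h
    have hlt : (p + 1) * (p + 3) < w := by
      apply lt_of_le_of_ne _ (fun h => hne h.symm)
      rw [hc]
      exact Nat.le_mul_of_pos_right _ hcpos
    have hcodd : Odd c := by
      have : a = (p + 3) * c := by
        apply Nat.eq_of_mul_eq_mul_left (show 0 < p + 1 by omega)
        rw [← ha, hc]
        ring
      rw [this, Nat.odd_mul] at h13
      exact h13.2
    refine ⟨(p + 1) * (p + 3), by nlinarith, hlt, ⟨c, hc⟩, ?_, ?_⟩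
    · rw [hc, Nat.mul_div_cancel_left c (by positivity)]
      exact hcodd
    · change down (fun p w => w = p + 1) p ((p + 1) * (p + 3)) ∧
        down (fun p w => w = p + 3) p ((p + 1) * (p + 3))
      rw [D1, D3]
      refine ⟨⟨by nlinarith, Dvd.intro _ rfl, ?_⟩, ⟨by nlinarith, Dvd.intro_left _ rfl, ?_⟩⟩
      · rw [Nat.mul_div_cancel_left _ (by omega)]
        have : p + 3 = p + 2 + 1 := by omega
        rw [this]
        exact (hpe.add even_two).add_one
      · rw [Nat.mul_div_cancel _ (by omega)]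
        exact hpe.add_one
  · rintro ⟨hpe, hp2, rfl⟩
    refine ⟨⟨?_, ?_⟩, ?_⟩
    · rw [D1]
      refine ⟨by nlinarith, Dvd.intro _ rfl, ?_⟩
      rw [Nat.mul_div_cancel_left _ (by omega)]
      have : p + 3 = p + 2 + 1 := by omega
      rw [this]
      exact (hpe.add even_two).add_one
    · rw [D3]
      refine ⟨by nlinarith, Dvd.intro_left _ rfl, ?_⟩
      rw [Nat.mul_div_cancel _ (by omega)]
      exact hpe.add_one
    · rintro ⟨s, hs1, hs2, _, _, hs5⟩
      change down (fun p w => w = p + 1) p s ∧ down (fun p w => w = p + 3) p s at hs5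
      rw [D1, D3] at hs5
      obtain ⟨⟨_, h1, _⟩, ⟨_, h3, _⟩⟩ := hs5
      have hco : Nat.Coprime (p + 1) (p + 3) := by
        have h1 : p + 3 = 2 + (p + 1) := by omega
        rw [h1, Nat.coprime_add_self_right, Nat.coprime_two_right]
        exact hpe.add_one
      have hdvd : (p + 1) * (p + 3) ∣ s := Nat.Coprime.mul_dvd_of_dvd_of_dvd hco h1 h3
      have := Nat.le_of_dvd (by omega) hdvd
      omega

end Pool.Agent.H893R5.MC
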