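import Mathlib
import Pool.Agent.H893R5.MC.Defs

/-! task PB: powers of `2 ^ N` are definable -/

set_option autoImplicit false

namespace Pool.Agent.H893R5.MC

theorem df_pow2 : Df {n | ∃ k : ℕ, n = 2 ^ k} := by
  have h := (df_univ.mul ((df_lit 3).add ((df_lit 2).mul df_univ))).compl
  refine h.congr ?_
  ext n
  simp only [Set.mem_compl_iff, Set.mem_ofPred_eq, mem_smul, mem_sadd, Set.mem_singleton_iff,
    Set.mem_univ, true_and]
  constructor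
  · intro hn
    have hn0 : n ≠ 0 := by
      rintro rfl
      exact hn ⟨0, 3, ⟨3, rfl, 0, ⟨2, rfl, 0, rfl⟩, rfl⟩, by simp⟩
    obtain ⟨k, m, hm, hkm⟩ := Nat.exists_eq_two_pow_mul_odd hn0
    obtain ⟨z, rfl⟩ := hm
    rcases Nat.eq_zero_or_pos z with hz | hz
    · subst hz
      exact ⟨k, by rw [hkm]; simp⟩
    · exfalso
      apply hn
      refine ⟨2 ^ k, 2 * z + 1, ⟨3, rfl, 2 * (z - 1), ⟨2, rfl, z - 1, rfl⟩, by omega⟩, hkm⟩
  · rintro ⟨k, rfl⟩ ⟨x, y, ⟨a, rfl, b, ⟨c, rfl, z, rfl⟩, rfl⟩, hxy⟩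
    have h1 : (3 + 2 * z) ∣ 2 ^ k := ⟨x, by rw [hxy]; ring⟩
    obtain ⟨i, _, hi⟩ := (Nat.dvd_prime_pow Nat.prime_two).1 h1
    rcases Nat.eq_zero_or_pos i with hi0 | hi0
    · subst hi0
      simp at hi
      omega
    · obtain ⟨i', rfl⟩ : ∃ i', i = i' + 1 := ⟨i - 1, by omega⟩
      rw [pow_succ] at hi
      omega

theorem pb_pow (a k : ℕ) : ∃ m, (a + 1) ^ k = 1 + a * m := by
  induction k with
  | zero => exact ⟨0, by simp⟩
  | succ k ih =>
    obtain ⟨m, hm⟩ := ih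
    exact ⟨1 + m + a * m, by rw [pow_succ, hm]; ring⟩

theorem df_pb (N : ℕ) (hN : 2 ≤ N) : Df {n | ∃ k : ℕ, n = (2 ^ N) ^ k} := by
  have h := df_pow2.inter ((df_lit 1).add ((df_lit (2 ^ N - 1)).mul df_univ))
  refine h.congr ?_
  have h4 : 4 ≤ 2 ^ N := by
    calc 4 = 2 ^ 2 := by norm_num
      _ ≤ 2 ^ N := Nat.pow_le_pow_right (by norm_num) hN
  obtain ⟨a, ha⟩ : ∃ a, 2 ^ N = a + 1 := ⟨2 ^ N - 1, by omega⟩
  have ha3 : 3 ≤ a := by omega
  have ha1 : 2 ^ N - 1 = a := by omega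
  ext n
  simp only [Set.mem_inter_iff, Set.mem_ofPred_eq, mem_smul, mem_sadd, Set.mem_singleton_iff,
    Set.mem_univ, true_and]
  constructor
  · rintro ⟨⟨j, rfl⟩, x, rfl, y, ⟨z, rfl, m, rfl⟩, hj⟩
    rw [ha1] at hj
    refine ⟨j / N, ?_⟩
    have hjN := Nat.div_add_mod j N
    have hr : j % N < N := Nat.mod_lt _ (by omega)
    set r := j % N with hrdef
    set k := j / N with hkdef
    obtain ⟨m', hm'⟩ := pb_pow a k
    have h1 : 2 ^ j = 2 ^ r + a * (m' * 2 ^ r) := by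
      rw [← hjN, pow_add, pow_mul, ha, hm']
      ring
    have h2 : 2 ^ r ≤ a := by
      have h3 : 2 ^ r < 2 ^ N := Nat.pow_lt_pow_right (by norm_num) hr
      omega
    have h3 : (2 ^ r + a * (m' * 2 ^ r)) % a = (1 + a * m) % a := by rw [← h1, hj]
    rw [Nat.add_mul_mod_self_left, Nat.add_mul_mod_self_left, Nat.mod_eq_of_lt (by omega : 1 < a)]
      at h3
    have h4' : 2 ^ r = 1 := by
      rcases h2.lt_or_eq with h5 | h5
      · rwa [Nat.mod_eq_of_lt h5] at h3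
      · rw [h5, Nat.mod_self] at h3
        omega
    rw [← hjN, pow_add, pow_mul, h4', mul_one]
  · rintro ⟨k, rfl⟩
    refine ⟨⟨N * k, by rw [pow_mul]⟩, 1, rfl, ?_⟩
    obtain ⟨m, hm⟩ := pb_pow a k
    refine ⟨a * m, ⟨a, ha1.symm, m, rfl⟩, ?_⟩
    rw [ha, hm]

end Pool.Agent.H893R5.MC
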