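import Mathlib
import Pool.Agent.H893R5.MC.Comp
import Pool.Agent.H893R5.MC.Conv
import Pool.Agent.H893R5.MC.Dig
import Pool.Agent.H893R5.MC.Down
import Pool.Agent.H893R5.MC.EAll
import Pool.Agent.H893R5.MC.Enc
import Pool.Agent.H893R5.MC.ML
import Pool.Agent.H893R5.MC.NT
import Pool.Agent.H893R5.MC.PB
import Pool.Agent.H893R5.MC.Sys

set_option autoImplicit false

namespace Pool.Agent.H893R5.MC

theorem code_inter (B : ℕ) (hB : 16 ≤ B) (R R' : ℕ → ℕ → Prop) :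
    code B R ∩ code B R' = code B (fun p w => R p w ∧ R' p w) := by
  ext n
  constructor
  · rintro ⟨⟨p, w, hp, hpw, hR, rfl⟩, ⟨p', w', hp', hpw', hR', e⟩⟩
    obtain ⟨rfl, rfl⟩ := E_inj B p w p' w' hB hp hpw hp' hpw' e
    exact ⟨p, w, hp, hpw, ⟨hR, hR'⟩, rfl⟩
  · rintro ⟨p, w, hp, hpw, ⟨hR, hR'⟩, rfl⟩
    exact ⟨⟨p, w, hp, hpw, hR, rfl⟩, ⟨p, w, hp, hpw, hR', rfl⟩⟩

theorem code_diff (B : ℕ) (hB : 16 ≤ B) (R R' : ℕ → ℕ → Prop) :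
    code B R \ code B R' = code B (fun p w => R p w ∧ ¬ R' p w) := by
  ext n
  constructor
  · rintro ⟨⟨p, w, hp, hpw, hR, rfl⟩, hn⟩
    exact ⟨p, w, hp, hpw, ⟨hR, fun h => hn ⟨p, w, hp, hpw, h, rfl⟩⟩, rfl⟩
  · rintro ⟨p, w, hp, hpw, ⟨hR, hR'⟩, rfl⟩
    refine ⟨⟨p, w, hp, hpw, hR, rfl⟩, ?_⟩
    rintro ⟨p', w', hp', hpw', hR'', e⟩
    obtain ⟨rfl, rfl⟩ := E_inj B p w p' w' hB hp hpw hp' hpw' e
    exact hR' hR''

theorem code_congr (B : ℕ) (R R' : ℕ → ℕ → Prop) (h : ∀ p w, 1 ≤ p → p < w → (R p w ↔ R' p w)) :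
    code B R = code B R' := by
  ext n
  constructor
  · rintro ⟨p, w, hp, hpw, hR, rfl⟩
    exact ⟨p, w, hp, hpw, (h p w hp hpw).1 hR, rfl⟩
  · rintro ⟨p, w, hp, hpw, hR, rfl⟩
    exact ⟨p, w, hp, hpw, (h p w hp hpw).2 hR, rfl⟩

theorem df_down (B : ℕ) (hB : 16 ≤ B) (hP : Df {n | ∃ k : ℕ, n = B ^ k}) (R : ℕ → ℕ → Prop)
    (h : Df (code B R)) : Df (code B (down R)) := by
  rw [← down_eq_of (fun B p w p' s k m => main_lemma B p w p' s k m) B hB R]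
  exact (h.mul (df_Q1 B hB hP)).inter (df_code_true B hB hP)

theorem df_quad (B : ℕ) (hB : 16 ≤ B) (hP : Df {n | ∃ k : ℕ, n = B ^ k}) : Df (code B QR) := by
  have h1 := df_down B hB hP _ (df_code_shift B 1 hB le_rfl hP)
  have h3 := df_down B hB hP _ (df_code_shift B 3 hB (by norm_num) hP)
  have hc := h1.inter h3
  rw [code_inter B hB] at hc
  have hd := df_down B hB hP _ hc
  have he := hc.diff hd
  rw [code_diff B hB] at he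
  rw [← code_congr B _ QR (fun p w hp _ => nt p w hp)]
  exact he

theorem frozen :
    ¬ (ComputablePred (fun p : List (ℕ × ℕ × ℕ) × ℕ =>
      p.1 ≠ [] ∧ ∃ f : ℕ → Set ℕ,
        (∀ i o a d : ℕ, p.1[i]? = some (o, a, d) →
          (o = 0 ∧ f i = {a}) ∨
          (o = 1 ∧ a < i ∧ d < i ∧ f i = f a ∪ f d) ∨
          (o = 2 ∧ a < i ∧ d < i ∧ f i = f a ∩ f d) ∨
          (o = 3 ∧ a < i ∧ f i = (f a)ᶜ) ∨
          (o = 4 ∧ a < i ∧ d < i ∧ f i = {n : ℕ | ∃ x ∈ f a, ∃ y ∈ f d, n = x + y}) ∨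
          (o = 5 ∧ a < i ∧ d < i ∧ f i = {n : ℕ | ∃ x ∈ f a, ∃ y ∈ f d, n = x * y})) ∧
        p.2 ∈ f (p.1.length - 1))) := by
  refine undecidable_of fun S hS => ?_
  obtain ⟨k, L, hk, hL, hx⟩ := exists_sys S hS
  obtain ⟨t, N, ht⟩ := enc_tree k L hk hL df_pb (fun B hB hP => df_conv B hB hP (df_quad B hB hP))
  exact ⟨t, N, fun n => (hx n).trans (ht n)⟩

end Pool.Agent.H893R5.MC
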